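import Pool.Agent.Lib.MP_ae0f86_nt.S.Stm

/-!
# MP_ae0f86_nt : single integrals, assembly
-/

set_option autoImplicit false

open CategoryTheory CategoryTheory.Limits Opposite MonoidalCategory

universe v u

namespace Pool.Agent.Lib.MP_ae0f86_nt

noncomputable section

attribute [local instance] CategoryTheory.Abelian.hasFiniteBiproducts

variable {A : Type u} [Category.{v} A] [Abelian A] [Linear ℚ A] [MonoidalCategory A]
  [SymmetricCategory A] [RigidCategory A] {HdR : A ⥤ ModuleCat.{0} QBar}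
  {HB : A ⥤ ModuleCat.{0} ℚ} [FibreFunctor HdR] [FibreFunctor HB]

/-- (3) → (1). -/
theorem p_sieq3 {c : Comparison HdR HB} {g : TensorGrading HdR} (Λ : Lefschetz c g)
    (h1 : S_siiso A) (h2 : S_siemb HB) (h3 : S_siend HB) (h4 : S_siname HB)
    (h5 : S_sisum HdR HB) (h6 : S_sione HdR HB) (h7 : S_siproj HdR HB) (h8 : S_sitwist Λ)
    (h9 : S_sirk c) : S_sieq3 Λ := by
  intro w T hss hd n₀ hne
  have hrk : 2 ≤ Module.finrank ℚ (HB.obj T) := by
    by_contra h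
    exact hne (h9 T (by omega) n₀)
  have gT : ∀ n, Gen T (tpow T n) := genpow_mem T
  have gU : ∀ n, Gen T (tpow T n ⊗ (tpow T n)ᘁ) := fun n => Gen.tensor (gT n) (Gen.dual (gT n))
  -- an element of the kernel
  have hx : ∃ x ∈ fw HdR HB (gT n₀), c.evAlg (Gen T) x = 0 ∧ x ≠ 0 := by
    by_contra hc
    push Not at hc
    apply hne
    have k1 := a_fwev c (gT n₀)
    have k2 := a_fwdim c (a_genclosed.1 T) (gT n₀)
    rw [independent, expected, ← k1, ← k2]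
    exact finrank_map_of_inj _ _ (fun x hx hx0 => hc x hx hx0)
  obtain ⟨x, hx, hx0, hxne⟩ := hx
  obtain ⟨r, ω, γ, y, hF, hsum, hnot⟩ := h5 c g T hss (tpow T n₀) (gT n₀) x hx hxne
  rw [Filter.eventually_atTop]
  refine ⟨n₀ + 2 * r, fun n hn => ?_⟩
  obtain ⟨m, rfl⟩ : ∃ m, n = n₀ + m := ⟨n - n₀, by omega⟩
  obtain ⟨f, hf⟩ := h3 T hrk r m (by omega)
  obtain ⟨i, hi⟩ := h4 (tpow T m) r f hf
  obtain ⟨p, hp⟩ := h2 T hss _ (gU m) r i hi
  obtain ⟨ω', hω', γ', hs⟩ := h6 g T _ _ (gU n₀) (gU m) r i p hp ω γ hF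
  have hval : c.val ω' γ' = 0 := by
    have k1 := congrArg (c.evAlg (Gen T)) (hs.trans hsum)
    rw [r_evAlg, map_mul, hx0, mul_zero] at k1
    exact k1
  have hnot' : asym HdR HB (Gen.tensor (gU n₀) (gU m)) ω' γ' ∉ rQ HdR HB T (𝟙_ A) := by
    rw [hs, hsum]
    exact hnot
  obtain ⟨ω'', hω'', γ'', hk, hv⟩ := h7 c g T hss _ (Gen.tensor (gU n₀) (gU m)) ω' γ' hω' hnot' hval
  obtain ⟨ξ, δ, e1, e2, e3⟩ := (h8 _ (tpow T (2 * (n₀ + m))) (w * (n₀ + m))
    ((h1 T Λ.L w hd).2 n₀ m)).1 ω'' γ'' hω'' hk hv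
  exact ⟨ξ, δ, e1, e2, e3⟩

/-- The single integral criterion. -/
theorem singleIntegrals_of {c : Comparison HdR HB} {g : TensorGrading HdR} (Λ : Lefschetz c g)
    (h1 : S_sieq2 Λ) (h2 : S_sieq3 Λ) (h3 : S_sigrw c) (h4 : S_siq1 c) (w : ℕ) (T : A)
    (hss : SemisimpleGen T) (hd : Nonempty (T ≅ Tᘁ ⊗ tpow Λ.L w)) :
    List.TFAE [
      ∀ n, independent c (tpow T n) = expected HB (tpow T n),
      ∀ n, ¬ Unexpected Λ w T n,
      ∃ᶠ n in Filter.atTop, ¬ Unexpected Λ w T n] ∧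
    ((∃ᶠ n in Filter.atTop, ¬ Unexpected Λ w T n) → ringKrullDim (PerAlg HB HB (Gen T)) ≤
      ((Cardinal.toENat (Algebra.trdeg ℚ (IntermediateField.adjoin ℚ (c.Per T))) : ℕ∞) :
        WithBot ℕ∞) + 1) ∧
    (Lin T (𝟙_ A) →
      (PeriodConjecture c T ↔ ∃ᶠ n in Filter.atTop, ¬ Unexpected Λ w T n)) := by
  have e12 : (∀ n, independent c (tpow T n) = expected HB (tpow T n)) →
      ∀ n, ¬ Unexpected Λ w T n := h1 w T hss hd
  have e23 : (∀ n, ¬ Unexpected Λ w T n) → ∃ᶠ n in Filter.atTop, ¬ Unexpected Λ w T n :=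
    fun h => Filter.Frequently.of_forall h
  have e31 : (∃ᶠ n in Filter.atTop, ¬ Unexpected Λ w T n) →
      ∀ n, independent c (tpow T n) = expected HB (tpow T n) := by
    intro h n₀
    by_contra hne
    exact h ((h2 w T hss hd n₀ hne).mono fun n hn hn' => hn' hn)
  refine ⟨?_, fun h => h3 T (e31 h), fun hT => ?_⟩
  · tfae_have 1 → 2 := e12
    tfae_have 2 → 3 := e23
    tfae_have 3 → 1 := e31
    tfae_finish
  · rw [h4 T hT]
    exact ⟨fun h => e23 (e12 h), e31⟩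

end

end Pool.Agent.Lib.MP_ae0f86_nt
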