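import Pool.Agent.Lib.MP_ae0f86_nt.R.Defs

/-!
# MP_ae0f86_nt : definitions for the single integral criterion
-/

open CategoryTheory CategoryTheory.Limits Opposite MonoidalCategory

universe v u

namespace Pool.Agent.Lib.MP_ae0f86_nt

noncomputable section

attribute [local instance] CategoryTheory.Abelian.hasFiniteBiproducts

section Grading

variable {A : Type u} [Category.{v} A] [Abelian A] [MonoidalCategory A] [SymmetricCategory A]

/-- A grading of the tensor functor `H`: natural projections `pr p` of `H(N)` onto its component of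
degree `p`, compatible with tensor products.  The Hodge filtration of the de Rham cohomology of
Nori motives is an exact tensor filtration, so it is the filtration `F` below of such a grading
(Saavedra Rivano, Catégories tannakiennes, IV.2.4). -/
structure TensorGrading {K : Type} [Field K] (H : A ⥤ ModuleCat.{0} K) [FibreFunctor H] where
  /-- the projection onto the component of degree `p` -/
  pr : ℤ → ∀ N : A, H.obj N →ₗ[K] H.obj N
  nat : ∀ (p : ℤ) {N N' : A} (f : N ⟶ N') (ω : H.obj N),
    pr p N' (act H f ω) = act H f (pr p N ω)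
  idem : ∀ (p : ℤ) (N : A) (ω : H.obj N), pr p N (pr p N ω) = pr p N ω
  orth : ∀ (p q : ℤ) (N : A) (ω : H.obj N), p ≠ q → pr p N (pr q N ω) = 0
  /-- every element is the sum of its components -/
  sum : ∀ (N : A) (ω : H.obj N), ∃ s : Finset ℤ, (∀ p, p ∉ s → pr p N ω = 0) ∧
    ∑ p ∈ s, pr p N ω = ω
  /-- products of homogeneous elements are homogeneous -/
  tensor : ∀ (p q : ℤ) (M N : A) (ω : H.obj M) (η : H.obj N),
    pr (p + q) (M ⊗ N) ((FibreFunctor.mul M N).app (pr p M ω) (pr q N η)) =
      (FibreFunctor.mul M N).app (pr p M ω) (pr q N η)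
  one : pr 0 (𝟙_ A) FibreFunctor.one = FibreFunctor.one

/-- The decreasing filtration defined by a grading: `F^p H(N)` is the sum of the components of
degree `≥ p`. -/
def TensorGrading.F {K : Type} [Field K] {H : A ⥤ ModuleCat.{0} K} [FibreFunctor H]
    (g : TensorGrading H) (p : ℤ) (N : A) : Submodule K (H.obj N) where
  carrier := {ω | ∀ q < p, g.pr q N ω = 0}
  zero_mem' := fun q _ => map_zero _
  add_mem' := fun {a b} ha hb q hq => by rw [map_add, ha q hq, hb q hq, add_zero]
  smul_mem' := fun a ω h q hq => by rw [map_smul, h q hq, smul_zero]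

end Grading

section Tate

variable {A : Type u} [Category.{v} A] [Abelian A] [MonoidalCategory A] [SymmetricCategory A]
  {HdR : A ⥤ ModuleCat.{0} QBar} {HB : A ⥤ ModuleCat.{0} ℚ} [FibreFunctor HdR]
  [FibreFunctor HB]

/-- A Lefschetz object: an invertible object `L` with `H_dR(L)` in degree `1`, a form
`0 ≠ ω₀ ∈ H_dR(L)` and a cycle `0 ≠ γ₀ ∈ H_B(L)^∨`.  For Nori motives `L = h¹(G_m) = 1(-1)`,
`ω₀ = dz / z`, `γ₀` a loop around `0`, and the period `γ₀(ω₀)` is `2 π i`. -/
structure Lefschetz (c : Comparison HdR HB) (g : TensorGrading HdR) where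
  L : A
  /-- the inverse of `L` -/
  inv : A
  iso : L ⊗ inv ≅ 𝟙_ A
  /-- `ω₀`, for Nori motives the class of `dz / z` -/
  form : HdR.obj L
  form_ne : form ≠ 0
  degree : g.pr 1 L form = form
  /-- `γ₀`, for Nori motives the class of a loop around `0` -/
  cycle : BDual HB L
  cycle_ne : cycle ≠ 0

/-- The period `γ₀(ω₀)`; for Nori motives it is `2 π i`. -/
def Lefschetz.period {c : Comparison HdR HB} {g : TensorGrading HdR} (Λ : Lefschetz c g) : ℂ :=
  c.val Λ.form Λ.cycle

/-- `(2 π i)^{w n}` is an unexpected integral for `T^{⊗ 2n}`: it is the integral `γ(ω)` of a class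
`ω ∈ F^{w n} H_dR(T^{⊗ 2n})` over a single rational cycle `γ ∈ H_B(T^{⊗ 2n})^∨`, although
`ω` is killed by all morphisms `T^{⊗ 2n} ⟶ L^{⊗ w n}` (such as the integration over algebraic
cycles). -/
def Unexpected {c : Comparison HdR HB} {g : TensorGrading HdR} (Λ : Lefschetz c g) (w : ℕ)
    (T : A) (n : ℕ) : Prop :=
  ∃ (ω : HdR.obj (tpow T (2 * n))) (γ : BDual HB (tpow T (2 * n))),
    ω ∈ g.F ((w * n : ℕ) : ℤ) (tpow T (2 * n)) ∧
    (∀ f : tpow T (2 * n) ⟶ tpow Λ.L (w * n), act HdR f ω = 0) ∧
    c.val ω γ = Λ.period ^ (w * n)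

end Tate

end

end Pool.Agent.Lib.MP_ae0f86_nt
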