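import Pool.Agent.Lib.MP_ae0f86_nt.S.Defs

/-!
# MP_ae0f86_nt : definitions for the one cycle criterion
-/

open CategoryTheory CategoryTheory.Limits Opposite MonoidalCategory

universe v u

namespace Pool.Agent.Lib.MP_ae0f86_nt

noncomputable section

attribute [local instance] CategoryTheory.Abelian.hasFiniteBiproducts

section Tate

variable {A : Type u} [Category.{v} A] [Abelian A] [MonoidalCategory A] [SymmetricCategory A]
  {HdR : A ⥤ ModuleCat.{0} QBar} {HB : A ⥤ ModuleCat.{0} ℚ} [FibreFunctor HdR]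
  [FibreFunctor HB]

/-- The cycle `γ` for `T^{⊗ 2n}` is complete in level `k`: every cycle for
`T^{⊗ 2k} ⊗ L^{⊗ w (n - k)}` is the inverse image `γ ∘ H_B(f)` of `γ` under a morphism (a
correspondence) `f : T^{⊗ 2k} ⊗ L^{⊗ w (n - k)} ⟶ T^{⊗ 2n}`. -/
def CompleteCycle (L : A) (w : ℕ) (T : A) (k n : ℕ) (γ : BDual HB (tpow T (2 * n))) : Prop :=
  ∀ σ : BDual HB (tpow T (2 * k) ⊗ tpow L (w * (n - k))),
    ∃ f : tpow T (2 * k) ⊗ tpow L (w * (n - k)) ⟶ tpow T (2 * n), γ.pull f = σ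

/-- `(2 π i)^{w n}` is an unexpected integral over the cycle `γ` for `T^{⊗ 2n}`: it is the integral
`γ(ω)` of a class `ω ∈ F^{w n} H_dR(T^{⊗ 2n})`, although `ω` is killed by all morphisms
`T^{⊗ 2n} ⟶ L^{⊗ w n}` (such as the integration over algebraic cycles). -/
def UnexpectedOver {c : Comparison HdR HB} {g : TensorGrading HdR} (Λ : Lefschetz c g) (w : ℕ)
    (T : A) (n : ℕ) (γ : BDual HB (tpow T (2 * n))) : Prop :=
  ∃ ω : HdR.obj (tpow T (2 * n)), ω ∈ g.F ((w * n : ℕ) : ℤ) (tpow T (2 * n)) ∧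
    (∀ f : tpow T (2 * n) ⟶ tpow Λ.L (w * n), act HdR f ω = 0) ∧
    c.val ω γ = Λ.period ^ (w * n)

end Tate

end

end Pool.Agent.Lib.MP_ae0f86_nt
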