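import Pool.Agent.Lib.MP_ae0f86_nt.S.Stm

/-!
# MP_ae0f86_nt : single integrals, effective forms of the statements
-/

set_option autoImplicit false

open CategoryTheory CategoryTheory.Limits Opposite MonoidalCategory

universe v u

namespace Pool.Agent.Lib.MP_ae0f86_nt

noncomputable section

attribute [local instance] CategoryTheory.Abelian.hasFiniteBiproducts

variable {A : Type u} [Category.{v} A] [Abelian A] [Linear ℚ A] [MonoidalCategory A]
  [SymmetricCategory A] [RigidCategory A] {HdR : A ⥤ ModuleCat.{0} QBar}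
  {HB : A ⥤ ModuleCat.{0} ℚ} [FibreFunctor HdR] [FibreFunctor HB]

/-- A sum of `dim HB(N)` symbols. -/
def S_sisum2 (HdR : A ⥤ ModuleCat.{0} QBar) (HB : A ⥤ ModuleCat.{0} ℚ) [FibreFunctor HdR]
    [FibreFunctor HB] : Prop :=
  ∀ (_ : Comparison HdR HB) (g : TensorGrading HdR) (M : A), SemisimpleGen M →
  ∀ (N : A) (hN : Gen M N), ∀ x ∈ fw HdR HB hN, x ≠ 0 →
  ∃ (ω : Fin (Module.finrank ℚ (HB.obj N)) → HdR.obj (N ⊗ Nᘁ))
    (γ : Fin (Module.finrank ℚ (HB.obj N)) → BDual HB (N ⊗ Nᘁ))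
    (y : PerAlg HdR HB (Gen M)), (∀ a, ω a ∈ g.F 0 (N ⊗ Nᘁ)) ∧
    ∑ a, asym HdR HB (Gen.tensor hN (Gen.dual hN)) (ω a) (γ a) = y * x ∧
    y * x ∉ rQ HdR HB M (𝟙_ A)

/-- `2 ^ (m / 2)` independent endomorphisms of `T^{⊗ m}`. -/
def S_siend2 (HB : A ⥤ ModuleCat.{0} ℚ) [FibreFunctor HB] : Prop :=
  ∀ (T : A), 2 ≤ Module.finrank ℚ (HB.obj T) → ∀ m : ℕ,
  ∃ f : Fin (2 ^ (m / 2)) → (tpow T m ⟶ tpow T m), LinearIndependent ℚ (fun a => (HB.map (f a)).hom)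

omit [RigidCategory A] [Linear ℚ A] in
theorem finrank_tensor_obj (HB : A ⥤ ModuleCat.{0} ℚ) [FibreFunctor HB] (M N : A) :
    Module.finrank ℚ (HB.obj (M ⊗ N)) =
      Module.finrank ℚ (HB.obj M) * Module.finrank ℚ (HB.obj N) := by
  rw [← Module.finrank_tensorProduct]
  exact (LinearEquiv.finrank_eq (LinearEquiv.ofBijective
    (TensorProduct.lift (FibreFunctor.mul (H := HB) M N)) (FibreFunctor.bij M N))).symm

omit [RigidCategory A] [Linear ℚ A] in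
theorem finrank_tpow_obj (HB : A ⥤ ModuleCat.{0} ℚ) [FibreFunctor HB] (T : A) (n : ℕ) :
    Module.finrank ℚ (HB.obj (tpow T n)) = Module.finrank ℚ (HB.obj T) ^ n := by
  induction n with
  | zero =>
    rw [pow_zero]
    have h := LinearEquiv.finrank_eq (LinearEquiv.ofBijective
      (LinearMap.toSpanSingleton ℚ (HB.obj (𝟙_ A)) (FibreFunctor.one (H := HB)))
      (FibreFunctor.one_bij (H := HB)))
    rw [Module.finrank_self] at h
    exact h.symm
  | succ n ih =>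
    rw [pow_succ, ← ih]
    exact finrank_tensor_obj HB (tpow T n) T

/-- (3) → (1), effective. -/
theorem p_sieq3_eff {c : Comparison HdR HB} {g : TensorGrading HdR} (Λ : Lefschetz c g)
    (h1 : S_siiso A) (h2 : S_siemb HB) (h3 : S_siend2 HB) (h4 : S_siname HB)
    (h5 : S_sisum2 HdR HB) (h6 : S_sione HdR HB) (h7 : S_siproj HdR HB) (h8 : S_sitwist Λ)
    (h9 : S_sirk c) (w : ℕ) (T : A) (hss : SemisimpleGen T)
    (hd : Nonempty (T ≅ Tᘁ ⊗ tpow Λ.L w)) (n₀ m : ℕ)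
    (hm : Module.finrank ℚ (HB.obj T) ^ n₀ ≤ 2 ^ (m / 2))
    (hne : independent c (tpow T n₀) ≠ expected HB (tpow T n₀)) :
    Unexpected Λ w T (n₀ + m) := by
  have hrk : 2 ≤ Module.finrank ℚ (HB.obj T) := by
    by_contra h
    exact hne (h9 T (by omega) n₀)
  have gT : ∀ n, Gen T (tpow T n) := genpow_mem T
  have gU : ∀ n, Gen T (tpow T n ⊗ (tpow T n)ᘁ) := fun n => Gen.tensor (gT n) (Gen.dual (gT n))
  -- an element of the kernel
  have hx : ∃ x ∈ fw HdR HB (gT n₀), c.evAlg (Gen T) x = 0 ∧ x ≠ 0 := by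
    by_contra hc
    push Not at hc
    apply hne
    have k1 := a_fwev c (gT n₀)
    have k2 := a_fwdim c (a_genclosed.1 T) (gT n₀)
    rw [independent, expected, ← k1, ← k2]
    exact finrank_map_of_inj _ _ (fun x hx hx0 => hc x hx hx0)
  obtain ⟨x, hx, hx0, hxne⟩ := hx
  obtain ⟨ω, γ, y, hF, hsum, hnot⟩ := h5 c g T hss (tpow T n₀) (gT n₀) x hx hxne
  obtain ⟨f₀, hf₀⟩ := h3 T hrk m
  have hle : Module.finrank ℚ (HB.obj (tpow T n₀)) ≤ 2 ^ (m / 2) := by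
    rw [finrank_tpow_obj]
    exact hm
  obtain ⟨i, hi⟩ := h4 (tpow T m) _ (fun a => f₀ (Fin.castLE hle a))
    (hf₀.comp _ (Fin.castLE_injective hle))
  obtain ⟨p, hp⟩ := h2 T hss _ (gU m) _ i hi
  obtain ⟨ω', hω', γ', hs⟩ := h6 g T _ _ (gU n₀) (gU m) _ i p hp ω γ hF
  have hval : c.val ω' γ' = 0 := by
    have k1 := congrArg (c.evAlg (Gen T)) (hs.trans hsum)
    rw [r_evAlg, map_mul, hx0, mul_zero] at k1
    exact k1
  have hnot' : asym HdR HB (Gen.tensor (gU n₀) (gU m)) ω' γ' ∉ rQ HdR HB T (𝟙_ A) := by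
    rw [hs, hsum]
    exact hnot
  obtain ⟨ω'', hω'', γ'', hk, hv⟩ := h7 c g T hss _ (Gen.tensor (gU n₀) (gU m)) ω' γ' hω' hnot' hval
  obtain ⟨ξ, δ, e1, e2, e3⟩ := (h8 _ (tpow T (2 * (n₀ + m))) (w * (n₀ + m))
    ((h1 T Λ.L w hd).2 n₀ m)).1 ω'' γ'' hω'' hk hv
  exact ⟨ξ, δ, e1, e2, e3⟩

/-- The single integral criterion, with the effective form. -/
theorem singleIntegrals_of2 {c : Comparison HdR HB} {g : TensorGrading HdR} (Λ : Lefschetz c g)
    (w : ℕ) (T : A)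
    (heff : ∀ n₀ m : ℕ, Module.finrank ℚ (HB.obj T) ^ n₀ ≤ 2 ^ (m / 2) →
      independent c (tpow T n₀) ≠ expected HB (tpow T n₀) → Unexpected Λ w T (n₀ + m))
    (h1 : S_sieq2 Λ) (h3 : S_sigrw c) (h4 : S_siq1 c)
    (hss : SemisimpleGen T) (hd : Nonempty (T ≅ Tᘁ ⊗ tpow Λ.L w)) :
    List.TFAE [
      ∀ n, independent c (tpow T n) = expected HB (tpow T n),
      ∀ n, ¬ Unexpected Λ w T n,
      ∃ᶠ n in Filter.atTop, ¬ Unexpected Λ w T n] ∧
    (∀ n, ¬ Unexpected Λ w T n → ∀ k ≤ n,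
      Module.finrank ℚ (HB.obj T) ^ k ≤ 2 ^ ((n - k) / 2) →
      independent c (tpow T k) = expected HB (tpow T k)) ∧
    ((∃ᶠ n in Filter.atTop, ¬ Unexpected Λ w T n) → ringKrullDim (PerAlg HB HB (Gen T)) ≤
      ((Cardinal.toENat (Algebra.trdeg ℚ (IntermediateField.adjoin ℚ (c.Per T))) : ℕ∞) :
        WithBot ℕ∞) + 1) ∧
    (Lin T (𝟙_ A) →
      (PeriodConjecture c T ↔ ∃ᶠ n in Filter.atTop, ¬ Unexpected Λ w T n)) := by
  have e12 : (∀ n, independent c (tpow T n) = expected HB (tpow T n)) →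
      ∀ n, ¬ Unexpected Λ w T n := h1 w T hss hd
  have e23 : (∀ n, ¬ Unexpected Λ w T n) → ∃ᶠ n in Filter.atTop, ¬ Unexpected Λ w T n :=
    fun h => Filter.Frequently.of_forall h
  have e31 : (∃ᶠ n in Filter.atTop, ¬ Unexpected Λ w T n) →
      ∀ n, independent c (tpow T n) = expected HB (tpow T n) := by
    intro h n₀
    by_contra hne
    obtain ⟨M, hM⟩ : ∃ M : ℕ, Module.finrank ℚ (HB.obj T) ^ n₀ ≤ 2 ^ M :=
      ⟨_, Nat.lt_two_pow_self.le⟩
    apply h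
    rw [Filter.eventually_atTop]
    refine ⟨n₀ + 2 * M, fun n hn hn' => hn' ?_⟩
    obtain ⟨m, rfl⟩ : ∃ m, n = n₀ + m := ⟨n - n₀, by omega⟩
    exact heff n₀ m (hM.trans (Nat.pow_le_pow_right (by norm_num) (by omega))) hne
  refine ⟨?_, ?_, fun h => h3 T (e31 h), fun hT => ?_⟩
  · tfae_have 1 → 2 := e12
    tfae_have 2 → 3 := e23
    tfae_have 3 → 1 := e31
    tfae_finish
  · intro n hn k hk hb
    by_contra hne
    have h5 := heff k (n - k) hb hne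
    rw [Nat.add_sub_cancel' hk] at h5
    exact hn h5
  · rw [h4 T hT]
    exact ⟨fun h => e23 (e12 h), e31⟩

end

end Pool.Agent.Lib.MP_ae0f86_nt
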