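import Pool.Agent.Lib.MP_ae0f86_nt.S.Eff

/-!
# MP_ae0f86_nt : single integrals, many endomorphisms
-/

set_option autoImplicit false

open CategoryTheory CategoryTheory.Limits Opposite MonoidalCategory

universe v u

namespace Pool.Agent.Lib.MP_ae0f86_nt

noncomputable section

attribute [local instance] CategoryTheory.Abelian.hasFiniteBiproducts

variable {A : Type u} [Category.{v} A] [Abelian A] [MonoidalCategory A]
  [SymmetricCategory A] (HB : A ⥤ ModuleCat.{0} ℚ) [FibreFunctor HB]

/-- `f ↦ (f ▷ T) ▷ T`. -/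
def effF (T : A) {X : A} (f : X ⟶ X) : (X ⊗ T) ⊗ T ⟶ (X ⊗ T) ⊗ T :=
  (f ⊗ₘ 𝟙 T) ⊗ₘ 𝟙 T

/-- The exchange of the last two factors. -/
def effS (T : A) (X : A) : (X ⊗ T) ⊗ T ⟶ (X ⊗ T) ⊗ T :=
  (α_ X T T).hom ≫ (𝟙 X ⊗ₘ (β_ T T).hom) ≫ (α_ X T T).inv

theorem effF_apply (T : A) {X : A} (f : X ⟶ X) (x : HB.obj X) (e e' : HB.obj T) :
    (HB.map (effF T f)).hom (FibreFunctor.mul (X ⊗ T) T (FibreFunctor.mul X T x e) e') =
      FibreFunctor.mul (X ⊗ T) T (FibreFunctor.mul X T ((HB.map f).hom x) e) e' := by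
  unfold effF
  rw [FibreFunctor.mul_nat, FibreFunctor.mul_nat, HB.map_id]
  rfl

theorem effS_apply (T : A) {X : A} (x : HB.obj X) (e e' : HB.obj T) :
    (HB.map (effS T X)).hom (FibreFunctor.mul (X ⊗ T) T (FibreFunctor.mul X T x e) e') =
      FibreFunctor.mul (X ⊗ T) T (FibreFunctor.mul X T x e') e := by
  unfold effS
  rw [HB.map_comp, HB.map_comp]
  change (HB.map (α_ X T T).inv).hom ((HB.map (𝟙 X ⊗ₘ (β_ T T).hom)).hom
    ((HB.map (α_ X T T).hom).hom _)) = _
  rw [FibreFunctor.mul_assoc, FibreFunctor.mul_nat, FibreFunctor.mul_comm, HB.map_id]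
  change (HB.map (α_ X T T).inv).hom (FibreFunctor.mul X (T ⊗ T) x (FibreFunctor.mul T T e' e)) = _
  rw [← FibreFunctor.mul_assoc, ← ModuleCat.comp_apply, ← HB.map_comp, Iso.hom_inv_id, HB.map_id]
  rfl

theorem eff_step (T : A) (hT : 2 ≤ Module.finrank ℚ (HB.obj T)) (X : A) (r : ℕ)
    (f : Fin r → (X ⟶ X)) (hf : LinearIndependent ℚ (fun a => (HB.map (f a)).hom)) :
    ∃ h : Fin (2 * r) → ((X ⊗ T) ⊗ T ⟶ (X ⊗ T) ⊗ T),
      LinearIndependent ℚ (fun a => (HB.map (h a)).hom) := by
  have : Module.Finite ℚ (HB.obj T) := FibreFunctor.finite (H := HB) T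
  -- two vectors and two functionals
  let b := Module.finBasis ℚ (HB.obj T)
  let i₀ : Fin (Module.finrank ℚ (HB.obj T)) := ⟨0, by omega⟩
  let i₁ : Fin (Module.finrank ℚ (HB.obj T)) := ⟨1, by omega⟩
  have h01 : i₀ ≠ i₁ := by
    intro h
    have := congrArg Fin.val h
    simp [i₀, i₁] at this
  let k : Fin r ⊕ Fin r → ((X ⊗ T) ⊗ T ⟶ (X ⊗ T) ⊗ T) :=
    Sum.elim (fun a => effF T (f a)) (fun a => effF T (f a) ≫ effS T X)
  have hk : LinearIndependent ℚ (fun a => (HB.map (k a)).hom) := by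
    rw [Fintype.linearIndependent_iff]
    intro q hq
    rw [Fintype.linearIndependent_iff] at hf
    rw [Fintype.sum_sum_type] at hq
    have key : ∀ x : HB.obj X, (∑ a, q (Sum.inl a) • (HB.map (f a)).hom x = 0) ∧
        ∑ a, q (Sum.inr a) • (HB.map (f a)).hom x = 0 := by
      intro x
      have h2 := congrArg (fun F => F (FibreFunctor.mul (X ⊗ T) T (FibreFunctor.mul X T x (b i₀))
        (b i₁))) hq
      simp only [LinearMap.add_apply, LinearMap.sum_apply, LinearMap.smul_apply,
        LinearMap.zero_apply] at h2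
      have h3 : ∀ a, (HB.map (k (Sum.inl a))).hom (FibreFunctor.mul (X ⊗ T) T
          (FibreFunctor.mul X T x (b i₀)) (b i₁)) = FibreFunctor.mul (X ⊗ T) T
          (FibreFunctor.mul X T ((HB.map (f a)).hom x) (b i₀)) (b i₁) :=
        fun a => effF_apply HB T (f a) x (b i₀) (b i₁)
      have h4 : ∀ a, (HB.map (k (Sum.inr a))).hom (FibreFunctor.mul (X ⊗ T) T
          (FibreFunctor.mul X T x (b i₀)) (b i₁)) = FibreFunctor.mul (X ⊗ T) T
          (FibreFunctor.mul X T ((HB.map (f a)).hom x) (b i₁)) (b i₀) := by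
        intro a
        show (HB.map (effF T (f a) ≫ effS T X)).hom _ = _
        rw [HB.map_comp, ModuleCat.comp_apply, effF_apply, effS_apply]
      simp only [h3, h4] at h2
      -- apply functionals
      have h5 : ∀ (ψ : Module.Dual ℚ (HB.obj X)) (φ φ' : Module.Dual ℚ (HB.obj T)),
          (∑ a, q (Sum.inl a) * (ψ ((HB.map (f a)).hom x))) * φ (b i₀) * φ' (b i₁) +
          (∑ a, q (Sum.inr a) * (ψ ((HB.map (f a)).hom x))) * φ (b i₁) * φ' (b i₀) = 0 := by
        intro ψ φ φ'
        have h6 := congrArg (tdual HB (tdual HB ψ φ) φ') h2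
        rw [map_add, map_sum, map_sum, map_zero] at h6
        simp only [map_smul, smul_eq_mul, p_algrel_tdual] at h6
        rw [← h6, Finset.sum_mul, Finset.sum_mul, Finset.sum_mul, Finset.sum_mul]
        congr 1 <;> exact Finset.sum_congr rfl fun a _ => by ring
      have c00 : b.coord i₀ (b i₀) = 1 := by simp [Module.Basis.coord_apply]
      have c11 : b.coord i₁ (b i₁) = 1 := by simp [Module.Basis.coord_apply]
      have c01 : b.coord i₀ (b i₁) = 0 := by
        simp [Module.Basis.coord_apply, Finsupp.single_apply, h01.symm]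
      have c10 : b.coord i₁ (b i₀) = 0 := by
        simp [Module.Basis.coord_apply, Finsupp.single_apply, h01]
      constructor
      · rw [← Module.forall_dual_apply_eq_zero_iff ℚ]
        intro ψ
        have h7 := h5 ψ (b.coord i₀) (b.coord i₁)
        rw [c00, c11, c01, c10, mul_one, mul_one, mul_zero, add_zero] at h7
        rw [map_sum, ← h7]
        exact Finset.sum_congr rfl fun a _ => by rw [map_smul, smul_eq_mul]
      · rw [← Module.forall_dual_apply_eq_zero_iff ℚ]
        intro ψ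
        have h7 := h5 ψ (b.coord i₁) (b.coord i₀)
        rw [c00, c11, c01, c10, mul_one, mul_one, mul_zero, zero_add] at h7
        rw [map_sum, ← h7]
        exact Finset.sum_congr rfl fun a _ => by rw [map_smul, smul_eq_mul]
    intro a
    rcases a with a | a
    · refine hf (fun a => q (Sum.inl a)) ?_ a
      ext x
      rw [LinearMap.sum_apply]
      exact (key x).1
    · refine hf (fun a => q (Sum.inr a)) ?_ a
      ext x
      rw [LinearMap.sum_apply]
      exact (key x).2
  let e : Fin (2 * r) ≃ Fin r ⊕ Fin r := (finCongr (two_mul r)).trans finSumFinEquiv.symm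
  exact ⟨fun a => k (e a), hk.comp e e.injective⟩

theorem eff_one (X : A) (h0 : 0 < Module.finrank ℚ (HB.obj X)) :
    ∃ f : Fin 1 → (X ⟶ X), LinearIndependent ℚ (fun a => (HB.map (f a)).hom) := by
  have : Module.Finite ℚ (HB.obj X) := FibreFunctor.finite (H := HB) X
  have : Nontrivial (HB.obj X) := Module.finrank_pos_iff.1 h0
  obtain ⟨x, hx⟩ := exists_ne (0 : HB.obj X)
  refine ⟨fun _ => 𝟙 _, ?_⟩
  rw [Fintype.linearIndependent_iff]
  intro q hq a
  rw [Fin.sum_univ_one, HB.map_id] at hq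
  have h2 : q 0 • x = 0 := congrArg (fun F => F x) hq
  rw [Subsingleton.elim a 0]
  exact (smul_eq_zero.1 h2).resolve_right hx

theorem p_siend2 : S_siend2 HB := by
  intro T hT m
  induction m using Nat.strong_induction_on with
  | _ m ih =>
    match m, ih with
    | 0, _ =>
      refine eff_one HB _ ?_
      rw [finrank_tpow_obj, pow_zero]
      exact one_pos
    | 1, _ =>
      refine eff_one HB _ ?_
      rw [finrank_tpow_obj, pow_one]
      omega
    | m + 2, ih =>
      obtain ⟨f, hf⟩ := ih m (by omega)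
      have h1 : 2 ^ ((m + 2) / 2) = 2 * 2 ^ (m / 2) := by
        rw [show (m + 2) / 2 = m / 2 + 1 by omega, pow_succ, mul_comm]
      rw [h1]
      exact eff_step HB T hT (tpow T m) _ f hf

end

end Pool.Agent.Lib.MP_ae0f86_nt
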