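import Pool.Agent.Lib.MP_ae0f86_nt.S.Eff

/-!
# MP_ae0f86_nt : single integrals, a short sum of symbols
-/

set_option autoImplicit false

open CategoryTheory CategoryTheory.Limits Opposite MonoidalCategory

universe v u

namespace Pool.Agent.Lib.MP_ae0f86_nt

noncomputable section

attribute [local instance] CategoryTheory.Abelian.hasFiniteBiproducts

section F

variable {A : Type u} [Category.{v} A] [Abelian A] [MonoidalCategory A] [SymmetricCategory A]
  {K : Type} [Field K] {H : A ⥤ ModuleCat.{0} K} [FibreFunctor H]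

theorem eff_mul_mem (g : TensorGrading H) {p q : ℤ} {M N : A} {ω : H.obj M} {η : H.obj N}
    (hω : ω ∈ g.F p M) (hη : η ∈ g.F q N) :
    FibreFunctor.mul M N ω η ∈ g.F (p + q) (M ⊗ N) := by
  obtain ⟨s, -, hs⟩ := g.sum M ω
  obtain ⟨t, -, ht⟩ := g.sum N η
  rw [← hs, ← ht, map_sum]
  refine Submodule.sum_mem _ fun j _ => ?_
  rw [map_sum, LinearMap.sum_apply]
  refine Submodule.sum_mem _ fun i _ => ?_
  intro r hr
  by_cases hi : i < p
  · rw [hω i hi, map_zero, LinearMap.zero_apply, map_zero]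
  by_cases hj : j < q
  · rw [hη j hj, map_zero, map_zero]
  have h1 := g.tensor i j M N ω η
  change g.pr (i + j) (M ⊗ N) (FibreFunctor.mul M N (g.pr i M ω) (g.pr j N η)) =
    FibreFunctor.mul M N (g.pr i M ω) (g.pr j N η) at h1
  rw [← h1]
  exact g.orth r (i + j) _ _ (by omega)

end F

variable {A : Type u} [Category.{v} A] [Abelian A] [Linear ℚ A] [MonoidalCategory A]
  [SymmetricCategory A] [RigidCategory A] {HdR : A ⥤ ModuleCat.{0} QBar}
  {HB : A ⥤ ModuleCat.{0} ℚ} [FibreFunctor HdR] [FibreFunctor HB]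

omit [Linear ℚ A] in
/-- An element of the span of the symbols with `ω ∈ F^p` is a sum of `dim HB(N)` symbols. -/
theorem eff_short (g : TensorGrading HdR) {M N : A} (hN : Gen M N) (p : ℤ)
    (b : Module.Basis (Fin (Module.finrank ℚ (HB.obj N))) ℚ (Module.Dual ℚ (HB.obj N)))
    (x : PerAlg HdR HB (Gen M))
    (hx : x ∈ Submodule.span QBar {z | ∃ ω ∈ g.F p N, ∃ σ, z = asym HdR HB hN ω σ}) :
    ∃ ω : Fin (Module.finrank ℚ (HB.obj N)) → HdR.obj N, (∀ a, ω a ∈ g.F p N) ∧
      x = ∑ a, asym HdR HB hN (ω a) (b a) := by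
  obtain ⟨a1, a2, a3, a4, a5, -, -⟩ := a_arel HdR HB (Gen M)
  have a10 : ∀ σ, asym HdR HB hN 0 σ = 0 := by
    intro σ
    have := a2 hN 0 0 σ
    rw [zero_smul, zero_smul] at this
    exact this
  refine Submodule.span_induction
    (p := fun x _ => ∃ ω : Fin (Module.finrank ℚ (HB.obj N)) → HdR.obj N, (∀ a, ω a ∈ g.F p N) ∧
      x = ∑ a, asym HdR HB hN (ω a) (b a)) ?_ ?_ ?_ ?_ hx
  · rintro _ ⟨ω, hω, σ, rfl⟩
    refine ⟨fun a => ((b.repr σ a : ℚ) : QBar) • ω, fun a => Submodule.smul_mem _ _ hω, ?_⟩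
    have key : ∀ s : Finset (Fin (Module.finrank ℚ (HB.obj N))),
        asym HdR HB hN ω (∑ a ∈ s, b.repr σ a • b a) =
          ∑ a ∈ s, asym HdR HB hN (((b.repr σ a : ℚ) : QBar) • ω) (b a) := by
      intro s
      induction s using Finset.induction_on with
      | empty =>
        rw [Finset.sum_empty, Finset.sum_empty]
        have := a4 hN 0 ω 0
        rw [zero_smul, Rat.cast_zero, zero_smul] at this
        exact this
      | insert i s hi ih =>
        rw [Finset.sum_insert hi, Finset.sum_insert hi, a3, ih, a4, a2]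
    have h2 := key Finset.univ
    rw [b.sum_repr] at h2
    exact h2
  · exact ⟨fun _ => 0, fun a => Submodule.zero_mem _, by simp [a10]⟩
  · rintro _ _ _ _ ⟨ω, hω, rfl⟩ ⟨η, hη, rfl⟩
    refine ⟨fun a => ω a + η a, fun a => Submodule.add_mem _ (hω a) (hη a), ?_⟩
    rw [← Finset.sum_add_distrib]
    exact Finset.sum_congr rfl fun a _ => (a1 hN _ _ _).symm
  · rintro q _ _ ⟨ω, hω, rfl⟩
    refine ⟨fun a => q • ω a, fun a => Submodule.smul_mem _ _ (hω a), ?_⟩
    rw [Finset.smul_sum]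
    exact Finset.sum_congr rfl fun a _ => (a2 hN _ _ _).symm

omit [Linear ℚ A] in
theorem p_sisum2 (hfil : S_sifil HdR HB) : S_sisum2 HdR HB := by
  intro c g M hss N hN x hx hx0
  obtain ⟨p, hxp, y, hy, hnot⟩ := hfil c g M hss N hN x hx hx0
  -- a single symbol `y`
  have h1 : ∃ η ∈ g.F (-p) (Nᘁ), ∃ τ : Module.Dual ℚ (HB.obj (Nᘁ)),
      asym HdR HB (Gen.dual hN) η τ * x ∉ rQ HdR HB M (𝟙_ A) := by
    by_contra hc
    push Not at hc
    apply hnot
    refine Submodule.span_induction (p := fun y _ => y * x ∈ rQ HdR HB M (𝟙_ A)) ?_ ?_ ?_ ?_ hy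
    · rintro _ ⟨η, hη, τ, rfl⟩
      exact hc η hη τ
    · rw [zero_mul]
      exact Submodule.zero_mem _
    · intro a b _ _ ha hb
      rw [add_mul]
      exact Submodule.add_mem _ ha hb
    · intro a b _ hb
      rw [smul_mul_assoc]
      exact Submodule.smul_mem _ _ hb
  obtain ⟨η, hη, τ, hnot⟩ := h1
  have : Module.Finite ℚ (HB.obj N) := FibreFunctor.finite (H := HB) N
  let b := (Module.finBasis ℚ (HB.obj N)).dualBasis
  obtain ⟨ω, hω, hxs⟩ := eff_short g hN p b x hxp
  refine ⟨fun a => FibreFunctor.mul N (Nᘁ) (ω a) η, fun a => tdual HB (b a) τ,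
    asym HdR HB (Gen.dual hN) η τ, fun a => ?_, ?_, hnot⟩
  · have h2 := eff_mul_mem g (hω a) hη
    rw [add_neg_cancel] at h2
    exact h2
  · rw [mul_comm, hxs, Finset.sum_mul]
    exact Finset.sum_congr rfl fun a _ =>
      ((a_algrel HdR HB (Gen M)).2.1 hN (Gen.dual hN) (Gen.tensor hN (Gen.dual hN)) _ _ _ _).symm

end

end Pool.Agent.Lib.MP_ae0f86_nt
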