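import Pool.Agent.Lib.MP_ae0f86_nt.S.EffA
import Pool.Agent.Lib.MP_ae0f86_nt.S.Tw
import Pool.Agent.Lib.MP_ae0f86_nt.S.P.dual
import Pool.Agent.Lib.MP_ae0f86_nt.S.P.iso
import Pool.Agent.Lib.MP_ae0f86_nt.S.P.emb
import Pool.Agent.Lib.MP_ae0f86_nt.S.P.name

/-!
# MP_ae0f86_nt : existence of complete cycles
-/

set_option autoImplicit false

open CategoryTheory CategoryTheory.Limits Opposite MonoidalCategory

universe v u

namespace Pool.Agent.Lib.MP_ae0f86_nt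

noncomputable section

attribute [local instance] CategoryTheory.Abelian.hasFiniteBiproducts

variable {A : Type u} [Category.{v} A] [Abelian A] [Linear ℚ A] [MonoidalCategory A]
  [SymmetricCategory A] [RigidCategory A] {HdR : A ⥤ ModuleCat.{0} QBar}
  {HB : A ⥤ ModuleCat.{0} ℚ} [FibreFunctor HdR] [FibreFunctor HB]

omit [Linear ℚ A] [RigidCategory A] in
/-- Functionals which agree on the products `x ⊗ y` are equal. -/
theorem ex_ext (HB : A ⥤ ModuleCat.{0} ℚ) [FibreFunctor HB] {M N : A} (σ τ : BDual HB (M ⊗ N))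
    (h : ∀ x y, σ (FibreFunctor.mul M N x y) = τ (FibreFunctor.mul M N x y)) : σ = τ := by
  refine LinearMap.ext fun z => ?_
  obtain ⟨t, rfl⟩ := (FibreFunctor.bij (H := HB) M N).2 z
  induction t using TensorProduct.induction_on with
  | zero => rw [map_zero, map_zero, map_zero]
  | add a b ha hb => rw [map_add, map_add, map_add, ha, hb]
  | tmul a b => rw [TensorProduct.lift.tmul]; exact h a b

omit [Linear ℚ A] [RigidCategory A] in
theorem ex_whiskerLeft (HB : A ⥤ ModuleCat.{0} ℚ) [FibreFunctor HB] (M : A) {N N' : A}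
    (f : N ⟶ N') (x : HB.obj M) (y : HB.obj N) :
    (HB.map (M ◁ f)).hom (FibreFunctor.mul M N x y) =
      FibreFunctor.mul M N' x ((HB.map f).hom y) := by
  have h := FibreFunctor.mul_nat (H := HB) (𝟙 M) f x y
  rw [id_tensorHom, HB.map_id] at h
  exact h

/-- `r` copies of `L^{⊗ w m}` split off from `T^{⊗ 2m}`, for `r ≤ 2^(m/2)`. -/
theorem ex_copies {L : A} {w : ℕ} {T : A} (hss : SemisimpleGen T)
    (hT : Nonempty (T ≅ Tᘁ ⊗ tpow L w)) (hb : 2 ≤ Module.finrank ℚ (HB.obj T)) (m r : ℕ)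
    (hr : r ≤ 2 ^ (m / 2)) :
    ∃ (I : Fin r → (tpow L (w * m) ⟶ tpow T (2 * m))) (P : Fin r → (tpow T (2 * m) ⟶ tpow L (w * m))),
      ∀ a b (y : HB.obj (tpow L (w * m))),
        (HB.map (P b)).hom ((HB.map (I a)).hom y) = if a = b then y else 0 := by
  have hiso : S_siiso A := p_siiso (p_sidual A)
  obtain ⟨ψ⟩ := (hiso T L w hT).1 m
  obtain ⟨f₀, hf₀⟩ := p_siend2 HB T hb m
  obtain ⟨i, hi⟩ := p_siname (tpow T m) _ (fun a => f₀ (Fin.castLE hr a))
    (hf₀.comp _ (Fin.castLE_injective hr))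
  have gU : Gen T (tpow T m ⊗ (tpow T m)ᘁ) := Gen.tensor (genpow_mem T m) (Gen.dual (genpow_mem T m))
  obtain ⟨p, hp⟩ := p_siemb T hss _ gU r i hi
  refine ⟨fun a => (λ_ (tpow L (w * m))).inv ≫ (i a ▷ tpow L (w * m)) ≫ ψ.hom,
    fun b => ψ.inv ≫ (p b ▷ tpow L (w * m)) ≫ (λ_ (tpow L (w * m))).hom, fun a b y => ?_⟩
  have hl : (HB.map (λ_ (tpow L (w * m))).inv).hom y =
      FibreFunctor.mul (𝟙_ A) (tpow L (w * m)) (FibreFunctor.one (H := HB)) y := by
    have h4 := tw_inv_hom HB (λ_ (tpow L (w * m)))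
      (FibreFunctor.mul (𝟙_ A) (tpow L (w * m)) (FibreFunctor.one (H := HB)) y)
    rw [FibreFunctor.one_mul] at h4
    exact h4
  rw [tw_comp, tw_comp, tw_comp, tw_comp, hl, tw_whisker, tw_inv_hom, tw_whisker, ← tw_comp, hp]
  by_cases hab : a = b
  · rw [if_pos hab, if_pos hab, HB.map_id]
    exact FibreFunctor.one_mul y
  · rw [if_neg hab, if_neg hab, HB.map_zero]
    show (HB.map (λ_ (tpow L (w * m))).hom).hom (FibreFunctor.mul (𝟙_ A) (tpow L (w * m)) 0 y) = 0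
    rw [map_zero, LinearMap.zero_apply, map_zero]

/-- Complete cycles exist. -/
theorem ex_complete {L inv : A} (iso : L ⊗ inv ≅ 𝟙_ A) {w : ℕ} {T : A} (hss : SemisimpleGen T)
    (hT : Nonempty (T ≅ Tᘁ ⊗ tpow L w)) (hb : 2 ≤ Module.finrank ℚ (HB.obj T)) (k m : ℕ)
    (hr : Module.finrank ℚ (HB.obj T) ^ (2 * k) ≤ 2 ^ (m / 2)) :
    ∃ γ : BDual HB (tpow T (2 * (k + m))), CompleteCycle L w T k (k + m) γ := by
  have hfin : Module.Finite ℚ (HB.obj (tpow T (2 * k))) := FibreFunctor.finite (H := HB) _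
  rw [← finrank_tpow_obj] at hr
  obtain ⟨I, P, hIP⟩ := ex_copies (HB := HB) hss hT hb m _ hr
  obtain ⟨φ⟩ : Nonempty (tpow T (2 * k) ⊗ tpow T (2 * m) ≅ tpow T (2 * (k + m))) := by
    rw [← iso_cls_eq]
    simp only [iso_cls_tensor, iso_cls_tpow]
    rw [mul_add, pow_add]
  obtain ⟨e⟩ := tw_inv iso (w * m)
  have hrk := tw_rank HB e
  have : Module.Finite ℚ (HB.obj (tpow L (w * m))) := FibreFunctor.finite (H := HB) _
  have hnt : Nontrivial (HB.obj (tpow L (w * m))) := by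
    apply Module.nontrivial_of_finrank_pos (R := ℚ)
    rw [hrk]
    exact one_pos
  obtain ⟨b₀, hb₀⟩ := exists_ne (0 : HB.obj (tpow L (w * m)))
  have hbs : ∀ y : HB.obj (tpow L (w * m)), ∃ a : ℚ, y = a • b₀ := tw_span hrk hb₀
  obtain ⟨lam, hlam⟩ : ∃ lam : Module.Dual ℚ (HB.obj (tpow L (w * m))), lam b₀ = 1 := by
    obtain ⟨l, hl⟩ : ∃ l : Module.Dual ℚ (HB.obj (tpow L (w * m))), l b₀ ≠ 0 := by
      by_contra hcon
      push Not at hcon
      exact hb₀ ((Module.forall_dual_apply_eq_zero_iff ℚ b₀).1 hcon)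
    exact ⟨(l b₀)⁻¹ • l, by rw [LinearMap.smul_apply, smul_eq_mul, inv_mul_cancel₀ hl]⟩
  let δ := (Module.finBasis ℚ (HB.obj (tpow T (2 * k)))).dualBasis
  refine ⟨(∑ b, tdual HB (δ b) (lam ∘ₗ (HB.map (P b)).hom)) ∘ₗ (HB.map φ.inv).hom, ?_⟩
  unfold CompleteCycle
  rw [Nat.add_sub_cancel_left]
  intro σ
  let σ₁ : Module.Dual ℚ (HB.obj (tpow T (2 * k))) :=
    σ ∘ₗ (FibreFunctor.mul (H := HB) (tpow T (2 * k)) (tpow L (w * m))).flip b₀
  refine ⟨∑ a, (δ.repr σ₁ a) • ((tpow T (2 * k) ◁ I a) ≫ φ.hom), ?_⟩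
  apply ex_ext
  intro x y
  obtain ⟨t, rfl⟩ := hbs y
  have hf : (HB.map (∑ a, (δ.repr σ₁ a) • ((tpow T (2 * k) ◁ I a) ≫ φ.hom))).hom
      (FibreFunctor.mul (tpow T (2 * k)) (tpow L (w * m)) x (t • b₀)) =
      ∑ a, (δ.repr σ₁ a) • (HB.map φ.hom).hom (FibreFunctor.mul (tpow T (2 * k)) (tpow T (2 * m)) x
        ((HB.map (I a)).hom (t • b₀))) := by
    rw [HB.map_sum, ModuleCat.hom_sum, LinearMap.sum_apply]
    refine Finset.sum_congr rfl fun a _ => ?_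
    rw [r_map_smul, HB.map_comp]
    show (δ.repr σ₁ a) • (HB.map φ.hom).hom ((HB.map (tpow T (2 * k) ◁ I a)).hom _) = _
    rw [ex_whiskerLeft]
  show ((∑ b, tdual HB (δ b) (lam ∘ₗ (HB.map (P b)).hom)) ∘ₗ (HB.map φ.inv).hom)
    ((HB.map (∑ a, (δ.repr σ₁ a) • ((tpow T (2 * k) ◁ I a) ≫ φ.hom))).hom
      (FibreFunctor.mul (tpow T (2 * k)) (tpow L (w * m)) x (t • b₀))) =
    σ (FibreFunctor.mul (tpow T (2 * k)) (tpow L (w * m)) x (t • b₀))
  rw [hf, map_sum]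
  have hterm : ∀ a, ((∑ b, tdual HB (δ b) (lam ∘ₗ (HB.map (P b)).hom)) ∘ₗ (HB.map φ.inv).hom)
      ((δ.repr σ₁ a) • (HB.map φ.hom).hom (FibreFunctor.mul (tpow T (2 * k)) (tpow T (2 * m)) x
        ((HB.map (I a)).hom (t • b₀)))) = t * ((δ.repr σ₁ a) * δ a x) := by
    intro a
    rw [map_smul, LinearMap.comp_apply, tw_inv_hom, LinearMap.sum_apply]
    have h2 : ∀ b, tdual HB (δ b) (lam ∘ₗ (HB.map (P b)).hom)
        (FibreFunctor.mul (tpow T (2 * k)) (tpow T (2 * m)) x ((HB.map (I a)).hom (t • b₀))) =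
        if a = b then δ a x * t else 0 := by
      intro b
      rw [p_algrel_tdual, LinearMap.comp_apply, hIP]
      split_ifs with hab
      · rw [map_smul, hlam, hab, smul_eq_mul, mul_one]
      · rw [map_zero, mul_zero]
    rw [Finset.sum_congr rfl fun b _ => h2 b, Finset.sum_ite_eq, if_pos (Finset.mem_univ _),
      smul_eq_mul]
    ring
  rw [Finset.sum_congr rfl fun a _ => hterm a, ← Finset.mul_sum]
  have h3 : ∑ a, (δ.repr σ₁ a) * δ a x = σ₁ x := by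
    conv_rhs => rw [← δ.sum_repr σ₁]
    rw [LinearMap.sum_apply]
    exact Finset.sum_congr rfl fun a _ => by rw [LinearMap.smul_apply, smul_eq_mul]
  rw [h3, map_smul, map_smul, smul_eq_mul]
  rfl

end

end Pool.Agent.Lib.MP_ae0f86_nt
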