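import Pool.Agent.Lib.MP_ae0f86_nt.S.EffB

/-!
# MP_ae0f86_nt : single integrals over a complete cycle
-/

set_option autoImplicit false

open CategoryTheory CategoryTheory.Limits Opposite MonoidalCategory

universe v u

namespace Pool.Agent.Lib.MP_ae0f86_nt

noncomputable section

attribute [local instance] CategoryTheory.Abelian.hasFiniteBiproducts

variable {A : Type u} [Category.{v} A] [Abelian A] [Linear ℚ A] [MonoidalCategory A]
  [SymmetricCategory A] [RigidCategory A] {HdR : A ⥤ ModuleCat.{0} QBar}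
  {HB : A ⥤ ModuleCat.{0} ℚ} [FibreFunctor HdR] [FibreFunctor HB]

/-- Projection to the part without invariants, with the same cycle. -/
theorem key_proj (c : Comparison HdR HB) (g : TensorGrading HdR) {M : A} (hss : SemisimpleGen M)
    {U : A} (hU : Gen M U) (ω : HdR.obj U) (γ : BDual HB U) (hF : ω ∈ g.F 0 U)
    (hnot : asym HdR HB hU ω γ ∉ rQ HdR HB M (𝟙_ A)) (hval : c.val ω γ = 0) :
    ∃ ω' ∈ g.F 0 U, (∀ f : U ⟶ 𝟙_ A, act HdR f ω' = 0) ∧ c.val ω' γ = 1 := by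
  have hG : TClosed (Gen M) := a_genclosed.1 M
  obtain ⟨V₀, V₁, hV₀, hV₁, ⟨φ⟩⟩ := ss_splits HB (M₀ := 𝟙_ A) hss U hU
  have gV₀ : Gen M V₀ := a_genclosed.2.2.2 M (𝟙_ A) V₀ Gen.unit hV₀
  have hmono : Mono (biprod.inr ≫ φ.inv : V₁ ⟶ U) := mono_comp _ _
  have gV₁ : Gen M V₁ := Gen.sub (biprod.inr ≫ φ.inv : V₁ ⟶ U) hU
  have h1 := r_split HdR HB hG.toClosed hU gV₀ gV₁ φ ω γ
  obtain ⟨a, ha⟩ := r_scalar hG hV₀ gV₀
    ((HdR.map (φ.hom ≫ biprod.fst)).hom ω) (γ ∘ₗ (HB.map (biprod.inl ≫ φ.inv)).hom)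
  rw [ha] at h1
  have hw : asym HdR HB gV₁ ((HdR.map (φ.hom ≫ biprod.snd)).hom ω)
      (γ ∘ₗ (HB.map (biprod.inr ≫ φ.inv)).hom) ∈ rQ HdR HB M (𝟙_ A) :=
    ⟨V₁, gV₁, _, _, hV₁, rfl⟩
  have ha0 : a ≠ 0 := by
    rintro rfl
    rw [map_zero, zero_add] at h1
    exact hnot (h1 ▸ hw)
  have h2 := congrArg (c.evAlg (Gen M)) h1
  rw [map_add, r_evAlg, r_evAlg, AlgHom.commutes] at h2
  have h3 : c.per U ω γ = 0 := hval
  rw [h3] at h2
  set e : U ⟶ U := (φ.hom ≫ biprod.snd) ≫ (biprod.inr ≫ φ.inv) with he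
  refine ⟨(-a)⁻¹ • act HdR e ω, ?_, fun f => ?_, ?_⟩
  · refine Submodule.smul_mem _ _ fun q hq => ?_
    rw [g.nat, hF q hq]
    exact map_zero _
  · have h4 : (biprod.inr ≫ φ.inv : V₁ ⟶ U) ≫ f = 0 := (hV₁ _ Gen.unit).2 _
    show (HdR.map f).hom ((-a)⁻¹ • (HdR.map e).hom ω) = 0
    rw [map_smul, ← ModuleCat.comp_apply, ← HdR.map_comp, he, Category.assoc, h4, comp_zero,
      HdR.map_zero]
    exact smul_zero _
  · show c.per U ((-a)⁻¹ • (HdR.map e).hom ω) γ = 1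
    rw [map_smul, LinearMap.smul_apply, he, HdR.map_comp, ModuleCat.comp_apply, c.per_nat]
    have h5 : c.per V₁ ((HdR.map (φ.hom ≫ biprod.snd)).hom ω)
        (γ ∘ₗ (HB.map (biprod.inr ≫ φ.inv)).hom) = algebraMap QBar ℂ (-a) := by
      rw [map_neg]
      linear_combination -h2
    rw [h5, Algebra.smul_def, ← map_mul, inv_mul_cancel₀ (neg_ne_zero.2 ha0), map_one]

/-- A linear relation between the periods of `N` which is not of motivic origin gives an unexpected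
integral over each cycle `γ` of `U` which is complete for `N ⊗ N^∨`. -/
theorem key_unexpected (hfil : S_sifil HdR HB) (c : Comparison HdR HB) (g : TensorGrading HdR)
    {M : A} (hss : SemisimpleGen M) {N U : A} (hN : Gen M N) (hU : Gen M U) (γ : BDual HB U)
    (hγ : ∀ σ : BDual HB (N ⊗ Nᘁ), ∃ f : N ⊗ Nᘁ ⟶ U, γ.pull f = σ)
    (hne : independent c N ≠ expected HB N) :
    ∃ ω ∈ g.F 0 U, (∀ f : U ⟶ 𝟙_ A, act HdR f ω = 0) ∧ c.val ω γ = 1 := by
  have hx : ∃ x ∈ fw HdR HB hN, c.evAlg (Gen M) x = 0 ∧ x ≠ 0 := by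
    by_contra hc
    push Not at hc
    apply hne
    have k1 := a_fwev c hN
    have k2 := a_fwdim c (a_genclosed.1 M) hN
    rw [independent, expected, ← k1, ← k2]
    exact finrank_map_of_inj _ _ (fun x hx hx0 => hc x hx hx0)
  obtain ⟨x, hx, hx0, hxne⟩ := hx
  obtain ⟨ω, σ, y, hF, hsum, hnot⟩ := p_sisum2 hfil c g M hss N hN x hx hxne
  choose f hf using fun a => hγ (σ a)
  obtain ⟨hadd, -, -, -, hfun, hz, -⟩ := a_arel HdR HB (Gen M)
  have gN : Gen M (N ⊗ Nᘁ) := Gen.tensor hN (Gen.dual hN)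
  have h1 : ∀ s : Finset (Fin (Module.finrank ℚ (HB.obj N))),
      asym HdR HB hU (∑ a ∈ s, (HdR.map (f a)).hom (ω a)) γ =
        ∑ a ∈ s, asym HdR HB gN (ω a) (σ a) := by
    intro s
    induction s using Finset.induction_on with
    | empty => rw [Finset.sum_empty, Finset.sum_empty, hz]
    | insert i s hi ih =>
      rw [Finset.sum_insert hi, Finset.sum_insert hi, hadd, ih, ← hf i]
      congr 1
      exact (hfun gN hU (f i) (ω i) γ).symm
  have h2 := (h1 Finset.univ).trans hsum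
  refine key_proj c g hss hU (∑ a, (HdR.map (f a)).hom (ω a)) γ ?_ ?_ ?_
  · refine Submodule.sum_mem _ fun a _ q hq => ?_
    have h3 := g.nat q (f a) (ω a)
    rw [hF a q hq] at h3
    exact h3.trans (map_zero _)
  · rw [h2]
    exact hnot
  · have h3 := congrArg (c.evAlg (Gen M)) h2
    rw [r_evAlg, map_mul, hx0, mul_zero] at h3
    exact h3

end

end Pool.Agent.Lib.MP_ae0f86_nt
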