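import Pool.Agent.Lib.MP_ae0f86_nt.S.EffA
import Pool.Agent.Lib.MP_ae0f86_nt.S.EffB
import Pool.Agent.Lib.MP_ae0f86_nt.S.P.dual
import Pool.Agent.Lib.MP_ae0f86_nt.S.P.iso
import Pool.Agent.Lib.MP_ae0f86_nt.S.P.emb
import Pool.Agent.Lib.MP_ae0f86_nt.S.P.name
import Pool.Agent.Lib.MP_ae0f86_nt.S.P.pair
import Pool.Agent.Lib.MP_ae0f86_nt.S.P.ops
import Pool.Agent.Lib.MP_ae0f86_nt.S.P.fil
import Pool.Agent.Lib.MP_ae0f86_nt.S.P.one
import Pool.Agent.Lib.MP_ae0f86_nt.S.P.proj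
import Pool.Agent.Lib.MP_ae0f86_nt.S.P.twist
import Pool.Agent.Lib.MP_ae0f86_nt.S.P.inj
import Pool.Agent.Lib.MP_ae0f86_nt.S.P.rk
import Pool.Agent.Lib.MP_ae0f86_nt.S.P.eq2
import Pool.Agent.Lib.MP_ae0f86_nt.S.P.grw
import Pool.Agent.Lib.MP_ae0f86_nt.S.P.q1

/-!
# MP_ae0f86_nt : single integrals, the theorem
-/

set_option autoImplicit false

open CategoryTheory CategoryTheory.Limits Opposite MonoidalCategory

universe v u

namespace Pool.Agent.Lib.MP_ae0f86_nt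

noncomputable section

attribute [local instance] CategoryTheory.Abelian.hasFiniteBiproducts

variable {A : Type u} [Category.{v} A] [Abelian A] [Linear ℚ A] [MonoidalCategory A]
  [SymmetricCategory A] [RigidCategory A] {HdR : A ⥤ ModuleCat.{0} QBar}
  {HB : A ⥤ ModuleCat.{0} ℚ} [FibreFunctor HdR] [FibreFunctor HB]

theorem singleIntegrals (c : Comparison HdR HB) (g : TensorGrading HdR)
    (Λ : Lefschetz c g) (w : ℕ) (T : A) (hss : SemisimpleGen T)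
    (hT : Nonempty (T ≅ Tᘁ ⊗ tpow Λ.L w)) :
    List.TFAE [
      ∀ n, independent c (tpow T n) = expected HB (tpow T n),
      ∀ n, ¬ Unexpected Λ w T n,
      ∃ᶠ n in Filter.atTop, ¬ Unexpected Λ w T n] ∧
    (∀ n, independent c (tpow T (2 * n)) = expected HB (tpow T (2 * n)) →
      ¬ Unexpected Λ w T n) ∧
    (∀ n, ¬ Unexpected Λ w T n → ∀ k ≤ n,
      Module.finrank ℚ (HB.obj T) ^ k ≤ 2 ^ ((n - k) / 2) →
      independent c (tpow T k) = expected HB (tpow T k)) ∧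
    ((∃ᶠ n in Filter.atTop, ¬ Unexpected Λ w T n) → ringKrullDim (PerAlg HB HB (Gen T)) ≤
      ((Cardinal.toENat (Algebra.trdeg ℚ (IntermediateField.adjoin ℚ (c.Per T))) : ℕ∞) :
        WithBot ℕ∞) + 1) ∧
    (Lin T (𝟙_ A) →
      (PeriodConjecture c T ↔ ∃ᶠ n in Filter.atTop, ¬ Unexpected Λ w T n)) := by
  have hiso : S_siiso A := p_siiso (p_sidual A)
  have htw : S_sitwist Λ := p_sitwist Λ
  have hinj : S_siinj Λ := p_siinj Λ
  obtain ⟨h1, h2, h3, h4⟩ := singleIntegrals_of2 Λ w T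
    (fun n₀ m hm hne => p_sieq3_eff Λ hiso p_siemb (p_siend2 HB) p_siname
      (p_sisum2 (p_sifil p_siops p_sipair)) p_sione p_siproj htw (p_sirk c) w T hss hT n₀ m hm hne)
    (p_sieq2 Λ hinj htw hiso) (p_sigrw c) (p_siq1 c) hss hT
  exact ⟨h1, fun n hn => p_sieq2_loc Λ hinj htw hiso w T hss hT n hn, h2, h3, h4⟩

end

end Pool.Agent.Lib.MP_ae0f86_nt
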