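import Pool.Agent.Lib.MP_ae0f86_nt.S.Ex
import Pool.Agent.Lib.MP_ae0f86_nt.S.Key
import Pool.Agent.Lib.MP_ae0f86_nt.S.P.pair
import Pool.Agent.Lib.MP_ae0f86_nt.S.P.ops
import Pool.Agent.Lib.MP_ae0f86_nt.S.P.fil
import Pool.Agent.Lib.MP_ae0f86_nt.S.P.twist
import Pool.Agent.Lib.MP_ae0f86_nt.S.P.inj
import Pool.Agent.Lib.MP_ae0f86_nt.S.P.eq2
import Pool.Agent.Lib.MP_ae0f86_nt.S.P.grw
import Pool.Agent.Lib.MP_ae0f86_nt.S.P.q1

/-!
# MP_ae0f86_nt : one cycle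
-/

set_option autoImplicit false

open CategoryTheory CategoryTheory.Limits Opposite MonoidalCategory

universe v u

namespace Pool.Agent.Lib.MP_ae0f86_nt

noncomputable section

attribute [local instance] CategoryTheory.Abelian.hasFiniteBiproducts

variable {A : Type u} [Category.{v} A] [Abelian A] [Linear ℚ A] [MonoidalCategory A]
  [SymmetricCategory A] [RigidCategory A] {HdR : A ⥤ ModuleCat.{0} QBar}
  {HB : A ⥤ ModuleCat.{0} ℚ} [FibreFunctor HdR] [FibreFunctor HB]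

omit [Linear ℚ A] [RigidCategory A] in
theorem one_retr_left (HB : A ⥤ ModuleCat.{0} ℚ) [FibreFunctor HB] (M : A) {X Y : A}
    (h : X ⟶ Y) (h' : Y ⟶ X) (hh : ∀ x : HB.obj X, (HB.map h').hom ((HB.map h).hom x) = x)
    (z : HB.obj (M ⊗ X)) : (HB.map (M ◁ h')).hom ((HB.map (M ◁ h)).hom z) = z := by
  obtain ⟨t, rfl⟩ := (FibreFunctor.bij (H := HB) M X).2 z
  induction t using TensorProduct.induction_on with
  | zero => rw [map_zero, map_zero, map_zero]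
  | add a b ha hb => rw [map_add, map_add, map_add, ha, hb]
  | tmul a b =>
    rw [TensorProduct.lift.tmul, ex_whiskerLeft, ex_whiskerLeft, hh]

omit [Linear ℚ A] [RigidCategory A] in
theorem one_retr_right (HB : A ⥤ ModuleCat.{0} ℚ) [FibreFunctor HB] (M : A) {X Y : A}
    (h : X ⟶ Y) (h' : Y ⟶ X) (hh : ∀ x : HB.obj X, (HB.map h').hom ((HB.map h).hom x) = x)
    (z : HB.obj (X ⊗ M)) : (HB.map (h' ▷ M)).hom ((HB.map (h ▷ M)).hom z) = z := by
  obtain ⟨t, rfl⟩ := (FibreFunctor.bij (H := HB) X M).2 z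
  induction t using TensorProduct.induction_on with
  | zero => rw [map_zero, map_zero, map_zero]
  | add a b ha hb => rw [map_add, map_add, map_add, ha, hb]
  | tmul a b =>
    rw [TensorProduct.lift.tmul, tw_whisker, tw_whisker, hh]

/-- A cycle which is complete in level `k` is complete in all lower levels. -/
theorem one_mono {L : A} {w : ℕ} {T : A} (hss : SemisimpleGen T)
    (hT : Nonempty (T ≅ Tᘁ ⊗ tpow L w)) (hb : 2 ≤ Module.finrank ℚ (HB.obj T)) {k' k n : ℕ}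
    (hk : k' ≤ k) (hn : k ≤ n) (γ : BDual HB (tpow T (2 * n))) (h : CompleteCycle L w T k n γ) :
    CompleteCycle L w T k' n γ := by
  obtain ⟨m, rfl⟩ := Nat.exists_eq_add_of_le hn
  obtain ⟨j, rfl⟩ := Nat.exists_eq_add_of_le hk
  unfold CompleteCycle at h ⊢
  rw [Nat.add_sub_cancel_left] at h
  have e1 : k' + j + m - k' = j + m := by omega
  rw [e1]
  intro σ
  obtain ⟨I, P, hIP⟩ := ex_copies (HB := HB) hss hT hb j 1 Nat.one_le_two_pow
  have hIP' : ∀ y : HB.obj (tpow L (w * j)), (HB.map (P 0)).hom ((HB.map (I 0)).hom y) = y := by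
    intro y
    rw [hIP, if_pos rfl]
  obtain ⟨χ⟩ : Nonempty (tpow T (2 * k') ⊗ tpow L (w * (j + m)) ≅
      (tpow T (2 * k') ⊗ tpow L (w * j)) ⊗ tpow L (w * m)) := by
    rw [← iso_cls_eq]
    simp only [iso_cls_tensor, iso_cls_tpow]
    rw [mul_add, pow_add, mul_assoc]
  obtain ⟨φ⟩ : Nonempty (tpow T (2 * k') ⊗ tpow T (2 * j) ≅ tpow T (2 * (k' + j))) := by
    rw [← iso_cls_eq]
    simp only [iso_cls_tensor, iso_cls_tpow]
    rw [mul_add, pow_add]
  have s1 := one_retr_left HB (tpow T (2 * k')) (I 0) (P 0) hIP'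
  have s2 : ∀ x : HB.obj (tpow T (2 * k') ⊗ tpow L (w * j)),
      (HB.map (φ.inv ≫ (tpow T (2 * k') ◁ P 0))).hom
        ((HB.map ((tpow T (2 * k') ◁ I 0) ≫ φ.hom)).hom x) = x := by
    intro x
    rw [tw_comp, tw_comp, tw_inv_hom, s1]
  have s3 := one_retr_right HB (tpow L (w * m)) _ _ s2
  obtain ⟨f, hf⟩ := h (σ ∘ₗ (HB.map (((φ.inv ≫ (tpow T (2 * k') ◁ P 0)) ▷ tpow L (w * m)) ≫
    χ.inv)).hom)
  refine ⟨(χ.hom ≫ (((tpow T (2 * k') ◁ I 0) ≫ φ.hom) ▷ tpow L (w * m))) ≫ f,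
    LinearMap.ext fun x => ?_⟩
  show γ ((HB.map ((χ.hom ≫ (((tpow T (2 * k') ◁ I 0) ≫ φ.hom) ▷ tpow L (w * m))) ≫ f)).hom x) =
    σ x
  rw [tw_comp, tw_comp]
  have h5 := congrArg (fun F => F ((HB.map (((tpow T (2 * k') ◁ I 0) ≫ φ.hom) ▷
    tpow L (w * m))).hom ((HB.map χ.hom).hom x))) hf
  refine Eq.trans h5 ?_
  show σ ((HB.map (((φ.inv ≫ (tpow T (2 * k') ◁ P 0)) ▷ tpow L (w * m)) ≫ χ.inv)).hom
    ((HB.map (((tpow T (2 * k') ◁ I 0) ≫ φ.hom) ▷ tpow L (w * m))).hom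
      ((HB.map χ.hom).hom x))) = σ x
  rw [tw_comp, s3, tw_inv_hom]

/-- A sequence of complete cycles. -/
theorem one_exists {L inv : A} (iso : L ⊗ inv ≅ 𝟙_ A) {w : ℕ} {T : A} (hss : SemisimpleGen T)
    (hT : Nonempty (T ≅ Tᘁ ⊗ tpow L w)) (hb : 2 ≤ Module.finrank ℚ (HB.obj T)) :
    ∃ γ : ∀ n, BDual HB (tpow T (2 * n)), ∀ k n, k ≤ n →
      Module.finrank ℚ (HB.obj T) ^ (2 * k) ≤ 2 ^ ((n - k) / 2) →
      CompleteCycle L w T k n (γ n) := by
  classical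
  have h1 : ∀ n, ∃ γ : BDual HB (tpow T (2 * n)), ∀ k, k ≤ n →
      Module.finrank ℚ (HB.obj T) ^ (2 * k) ≤ 2 ^ ((n - k) / 2) → CompleteCycle L w T k n γ := by
    intro n
    set Q : ℕ → Prop := fun k => Module.finrank ℚ (HB.obj T) ^ (2 * k) ≤ 2 ^ ((n - k) / 2) with hQ
    set κ := Nat.findGreatest Q n with hκ
    have h0 : Q 0 := by
      show Module.finrank ℚ (HB.obj T) ^ (2 * 0) ≤ 2 ^ ((n - 0) / 2)
      rw [mul_zero, pow_zero]
      exact Nat.one_le_two_pow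
    have hκn : κ ≤ n := Nat.findGreatest_le n
    have hκQ : Q κ := Nat.findGreatest_spec (P := Q) (Nat.zero_le n) h0
    have h2 : ∃ γ : BDual HB (tpow T (2 * n)), CompleteCycle L w T κ n γ := by
      have h3 : ∀ κ' ≤ n, Q κ' → ∃ γ : BDual HB (tpow T (2 * n)), CompleteCycle L w T κ' n γ := by
        intro κ' hκ' hQ'
        obtain ⟨m, rfl⟩ := Nat.exists_eq_add_of_le hκ'
        refine ex_complete (HB := HB) iso hss hT hb κ' m ?_
        have h4 : Module.finrank ℚ (HB.obj T) ^ (2 * κ') ≤ 2 ^ ((κ' + m - κ') / 2) := hQ'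
        rw [Nat.add_sub_cancel_left] at h4
        exact h4
      exact h3 κ hκn hκQ
    obtain ⟨γ, hγ⟩ := h2
    refine ⟨γ, fun k hk hk' => ?_⟩
    exact one_mono (HB := HB) hss hT hb (Nat.le_findGreatest hk hk') hκn γ hγ
  choose γ hγ using h1
  exact ⟨γ, fun k n hk hk' => hγ n k hk hk'⟩

/-- The local form: one complete cycle. -/
theorem one_local {c : Comparison HdR HB} {g : TensorGrading HdR} (Λ : Lefschetz c g) (w : ℕ)
    (T : A) (hss : SemisimpleGen T) (hT : Nonempty (T ≅ Tᘁ ⊗ tpow Λ.L w)) (k n : ℕ) (hk : k ≤ n)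
    (γ : BDual HB (tpow T (2 * n))) (hγ : CompleteCycle Λ.L w T k n γ)
    (hne : independent c (tpow T k) ≠ expected HB (tpow T k)) : UnexpectedOver Λ w T n γ := by
  obtain ⟨m, rfl⟩ := Nat.exists_eq_add_of_le hk
  have hiso : S_siiso A := p_siiso (p_sidual A)
  unfold CompleteCycle at hγ
  rw [Nat.add_sub_cancel_left] at hγ
  obtain ⟨ψ⟩ := (hiso T Λ.L w hT).1 (k + m)
  obtain ⟨ψk⟩ := (hiso T Λ.L w hT).1 k
  obtain ⟨θ⟩ : Nonempty ((tpow T k ⊗ (tpow T k)ᘁ) ⊗ tpow Λ.L (w * (k + m)) ≅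
      tpow T (2 * k) ⊗ tpow Λ.L (w * m)) := by
    have h1 := iso_cls_eq.2 ⟨ψk⟩
    rw [← iso_cls_eq]
    simp only [iso_cls_tensor, iso_cls_tpow] at h1 ⊢
    rw [mul_add, pow_add, ← mul_assoc, h1]
  obtain ⟨γ', h1, h2⟩ := tw_main Λ (w * (k + m)) ψ θ γ hγ
  have gU : ∀ n, Gen T (tpow T n ⊗ (tpow T n)ᘁ) := fun n =>
    Gen.tensor (genpow_mem T n) (Gen.dual (genpow_mem T n))
  obtain ⟨ω, e1, e2, e3⟩ := key_unexpected (p_sifil p_siops p_sipair) c g hss (genpow_mem T k)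
    (gU (k + m)) γ' h1 hne
  exact h2 ω e1 e2 e3

/-- One cycle. -/
theorem oneCycle (c : Comparison HdR HB) (g : TensorGrading HdR)
    (Λ : Lefschetz c g) (w : ℕ) (T : A) (hss : SemisimpleGen T)
    (hT : Nonempty (T ≅ Tᘁ ⊗ tpow Λ.L w)) :
    (∀ γ : ∀ n, BDual HB (tpow T (2 * n)),
      (∀ k, ∀ᶠ n in Filter.atTop, CompleteCycle Λ.L w T k n (γ n)) →
      List.TFAE [
        ∀ n, independent c (tpow T n) = expected HB (tpow T n),
        ∀ n γ', ¬ UnexpectedOver Λ w T n γ',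
        ∃ᶠ n in Filter.atTop, ¬ UnexpectedOver Λ w T n (γ n)] ∧
      ((∃ᶠ n in Filter.atTop, ¬ UnexpectedOver Λ w T n (γ n)) →
        ringKrullDim (PerAlg HB HB (Gen T)) ≤
          ((Cardinal.toENat (Algebra.trdeg ℚ (IntermediateField.adjoin ℚ (c.Per T))) : ℕ∞) :
            WithBot ℕ∞) + 1) ∧
      (Lin T (𝟙_ A) →
        (PeriodConjecture c T ↔ ∃ᶠ n in Filter.atTop, ¬ UnexpectedOver Λ w T n (γ n)))) ∧
    (∀ n γ, independent c (tpow T (2 * n)) = expected HB (tpow T (2 * n)) →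
      ¬ UnexpectedOver Λ w T n γ) ∧
    (∀ k n γ, k ≤ n → CompleteCycle Λ.L w T k n γ → ¬ UnexpectedOver Λ w T n γ →
      independent c (tpow T k) = expected HB (tpow T k)) ∧
    (2 ≤ Module.finrank ℚ (HB.obj T) → ∃ γ : ∀ n, BDual HB (tpow T (2 * n)), ∀ k n, k ≤ n →
      Module.finrank ℚ (HB.obj T) ^ (2 * k) ≤ 2 ^ ((n - k) / 2) →
      CompleteCycle Λ.L w T k n (γ n)) := by
  have hiso : S_siiso A := p_siiso (p_sidual A)
  have htw : S_sitwist Λ := p_sitwist Λ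
  have hinj : S_siinj Λ := p_siinj Λ
  have hU : ∀ n γ, UnexpectedOver Λ w T n γ → Unexpected Λ w T n := by
    rintro n γ ⟨ω, h1, h2, h3⟩
    exact ⟨ω, γ, h1, h2, h3⟩
  have hloc : ∀ n γ, independent c (tpow T (2 * n)) = expected HB (tpow T (2 * n)) →
      ¬ UnexpectedOver Λ w T n γ := fun n γ hn hu =>
    p_sieq2_loc Λ hinj htw hiso w T hss hT n hn (hU n γ hu)
  refine ⟨fun γ hγ => ?_, hloc, fun k n γ hk hγ hn => ?_, fun hb => ?_⟩
  · have e12 : (∀ n, independent c (tpow T n) = expected HB (tpow T n)) →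
        ∀ n γ', ¬ UnexpectedOver Λ w T n γ' := fun h n γ' => hloc n γ' (h (2 * n))
    have e23 : (∀ n γ', ¬ UnexpectedOver Λ w T n γ') →
        ∃ᶠ n in Filter.atTop, ¬ UnexpectedOver Λ w T n (γ n) :=
      fun h => Filter.Frequently.of_forall fun n => h n (γ n)
    have e31 : (∃ᶠ n in Filter.atTop, ¬ UnexpectedOver Λ w T n (γ n)) →
        ∀ n, independent c (tpow T n) = expected HB (tpow T n) := by
      intro h k
      by_contra hne
      apply h
      filter_upwards [hγ k, Filter.eventually_ge_atTop k] with n h1 h2 h3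
      exact h3 (one_local Λ w T hss hT k n h2 (γ n) h1 hne)
    refine ⟨?_, fun h => p_sigrw c T (e31 h), fun h1 => ?_⟩
    · tfae_have 1 → 2 := e12
      tfae_have 2 → 3 := e23
      tfae_have 3 → 1 := e31
      tfae_finish
    · rw [p_siq1 c T h1]
      exact ⟨fun h => e23 (e12 h), e31⟩
  · by_contra hne
    exact hn (one_local Λ w T hss hT k n hk γ hγ hne)
  · exact one_exists (HB := HB) Λ.iso hss hT hb

end

end Pool.Agent.Lib.MP_ae0f86_nt
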