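import Pool.Agent.Lib.MP_ae0f86_nt.S.Defs
import Pool.Agent.Lib.MP_ae0f86_nt.R.Final

/-!
# MP_ae0f86_nt : single integrals, statements of the pieces

Notation: `U n = T^{⊗ n} ⊗ (T^{⊗ n})^∨`.  `rQ HdR HB M (𝟙_ A)` is the space of the symbols of objects of
`⟨M⟩` without invariants.  The lemmas on symbols are `a_arel`, `a_algrel`, `r_sym`, `r_split`, `r_evAlg`, `rQ_one`,
`rQ_dec`, `ss_splits`, `r_scalar`, `r_orth_unit`, `a_fwprod`, `a_fwlin`, `a_fwev` (see `R/LocalB.lean` for their use).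
-/

open CategoryTheory CategoryTheory.Limits Opposite MonoidalCategory

universe v u

namespace Pool.Agent.Lib.MP_ae0f86_nt

noncomputable section

attribute [local instance] CategoryTheory.Abelian.hasFiniteBiproducts

/-! ## object level -/

section Obj

variable {A : Type u} [Category.{v} A] [Abelian A] [MonoidalCategory A] [SymmetricCategory A]
  [RigidCategory A]

/-- [SI dual] the dual of a tensor product.

Proof. `ExactPairing.mk`-type composition of the pairings, or uniqueness of right duals (`rightDualIso`); braiding to exchange the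
factors.  Also `(𝟙_ A)ᘁ ≅ 𝟙_ A`, and `Xᘁ ≅ Yᘁ` for `X ≅ Y`. -/
def S_sidual (A : Type u) [Category.{v} A] [Abelian A] [MonoidalCategory A] [SymmetricCategory A]
    [RigidCategory A] : Prop :=
  (∀ X Y : A, Nonempty ((X ⊗ Y)ᘁ ≅ Xᘁ ⊗ Yᘁ)) ∧ Nonempty ((𝟙_ A)ᘁ ≅ 𝟙_ A) ∧
    ∀ X Y : A, Nonempty (X ≅ Y) → Nonempty (Xᘁ ≅ Yᘁ)

/-- [SI iso] Uses `S_sidual`.

Proof. (1) `tpow X (a + b) ≅ tpow X a ⊗ tpow X b` (induct over `b`, associator; exists perhaps in `D/` or `P/Twist.lean`).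
(2) `(tpow T n)ᘁ ⊗ tpow L (w * n) ≅ tpow T n`: induct, `(T^n ⊗ T)ᘁ ⊗ (L^(w n) ⊗ L^w) ≅ ((T^n)ᘁ ⊗ L^(w n)) ⊗ (Tᘁ ⊗ L^w)`.
(3) `(U a ⊗ U b) ⊗ L^(w (a + b)) ≅ (T^a ⊗ T^b) ⊗ (((T^a)ᘁ ⊗ L^(w a)) ⊗ ((T^b)ᘁ ⊗ L^(w b))) ≅ T^(2 (a + b))` (with `b = 0` or directly:
`U n ⊗ L^(w n) ≅ T^(2 n)`). -/
def S_siiso (A : Type u) [Category.{v} A] [Abelian A] [MonoidalCategory A] [SymmetricCategory A]
    [RigidCategory A] : Prop :=
  ∀ (T L : A) (w : ℕ), Nonempty (T ≅ Tᘁ ⊗ tpow L w) →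
    (∀ n, Nonempty ((tpow T n ⊗ (tpow T n)ᘁ) ⊗ tpow L (w * n) ≅ tpow T (2 * n))) ∧
    ∀ a b, Nonempty (((tpow T a ⊗ (tpow T a)ᘁ) ⊗ (tpow T b ⊗ (tpow T b)ᘁ)) ⊗
      tpow L (w * (a + b)) ≅ tpow T (2 * (a + b)))

end Obj

section Main

variable {A : Type u} [Category.{v} A] [Abelian A] [Linear ℚ A] [MonoidalCategory A]
  [SymmetricCategory A] [RigidCategory A] {HdR : A ⥤ ModuleCat.{0} QBar}
  {HB : A ⥤ ModuleCat.{0} ℚ} [FibreFunctor HdR] [FibreFunctor HB]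

/-- [SI emb] Invariants give split copies of the unit.

Proof. `1^r → U` given by the `i a` is mono: `HB` of it is injective because `HB(⨁ 1) = ⊕ HB(1)` and `HB(1) = ℚ one`, and `HB` (exact,
faithful) reflects monomorphisms (a morphism `f` with `HB(f)` injective is mono: `HB(kernel f) = 0`, so `kernel f = 0`).  By
`SemisimpleGen` it has a retraction `ρ : U ⟶ ⨁ 1`; `p b = ρ ≫ π b`. -/
def S_siemb (HB : A ⥤ ModuleCat.{0} ℚ) [FibreFunctor HB] : Prop :=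
  ∀ (M : A), SemisimpleGen M → ∀ (U : A), Gen M U → ∀ (r : ℕ) (i : Fin r → (𝟙_ A ⟶ U)),
  LinearIndependent ℚ (fun a => (HB.map (i a)).hom (FibreFunctor.one : HB.obj (𝟙_ A))) →
  ∃ p : Fin r → (U ⟶ 𝟙_ A), ∀ a b, i a ≫ p b = if a = b then 𝟙 _ else 0

/-- [SI end] Many endomorphisms of `T^{⊗ m}`, for `dim HB(T) ≥ 2`.

Proof. If `f_1, …, f_r : T^m → T^m` are such that the `HB(f_a)` are linearly independent then so are the `HB(f_a ▷ T)`
(endomorphisms of `T^(m+1) = T^m ⊗ T`; `HB(M ⊗ N) = HB(M) ⊗ HB(N)` by `FibreFunctor.bij`, `HB(T) ≠ 0`), and so are the `r + 1`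
endomorphisms `(f_a ▷ T) ▷ T` and `α ≫ (T^m ◁ β_ T T) ≫ α⁻¹` of `T^(m+2)`: take `x ≠ 0` in `HB(T^m)`, `e₁, e₂` independent in
`HB(T)`; a relation `∑ c_a (f_a ⊗ 1 ⊗ 1) + c (1 ⊗ swap) = 0` applied to `x ⊗ e₁ ⊗ e₂` gives
`(∑ c_a f_a x) ⊗ e₁ ⊗ e₂ + c x ⊗ e₂ ⊗ e₁ = 0`, so `c = 0`.  So there are `r` independent ones for `m ≥ 2 r`. -/
def S_siend (HB : A ⥤ ModuleCat.{0} ℚ) [FibreFunctor HB] : Prop :=
  ∀ (T : A), 2 ≤ Module.finrank ℚ (HB.obj T) → ∀ (r m : ℕ), 2 * r ≤ m →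
  ∃ f : Fin r → (tpow T m ⟶ tpow T m), LinearIndependent ℚ (fun a => (HB.map (f a)).hom)

/-- [SI name] From endomorphisms of `N` to invariants of `N ⊗ N^∨`.

Proof. `i a = η_ N (Nᘁ) ≫ (f a ▷ Nᘁ)`.  With the dual bases of `p_dualbasis HB N b` (`R/Unit.lean` uses it):
`HB(η)(one) = ∑_k mul (b k) (b' k)`, so `HB(i a)(one) = ∑_k mul (HB(f a)(b k)) (b' k)`; the `mul x (b' k)` are independent
(`FibreFunctor.bij`), so a relation between the `HB(i a)(one)` is a relation between the `HB(f a)`. -/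
def S_siname (HB : A ⥤ ModuleCat.{0} ℚ) [FibreFunctor HB] : Prop :=
  ∀ (N : A) (r : ℕ) (f : Fin r → (N ⟶ N)), LinearIndependent ℚ (fun a => (HB.map (f a)).hom) →
  ∃ i : Fin r → (𝟙_ A ⟶ N ⊗ Nᘁ),
    LinearIndependent ℚ (fun a => (HB.map (i a)).hom (FibreFunctor.one : HB.obj (𝟙_ A)))

/-- [SI pair] First half of the proof of `r_localB` (`R/LocalB.lean`), verbatim: up to `h3`, `h4`. -/
def S_sipair (HdR : A ⥤ ModuleCat.{0} QBar) (HB : A ⥤ ModuleCat.{0} ℚ) [FibreFunctor HdR]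
    [FibreFunctor HB] : Prop :=
  ∀ (_ : Comparison HdR HB) (M : A), SemisimpleGen M → ∀ (N : A) (hN : Gen M N),
  ∀ x ∈ fw HdR HB hN, x ≠ 0 → ∃ y ∈ fw HdR HB (Gen.dual hN), y * x ∉ rQ HdR HB M (𝟙_ A)

/-- [SI ops] The grading of the formal period algebra.

Proof. On the space `FP` of the formal periods: `Submodule.mapQ` of the linear map `(N, ω, σ) ↦ (N, pr p ω, σ)` of the free vector space; it
preserves `LinRel` because `pr p` is linear and natural.  Transport to `PerAlg` with `a_fpring` (`toPerAlg` is bijective, as in `r_sym`) and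
`a_algrel .1` (`toPerAlg (sym ..) = asym ..`).  (b) from `g.sum` for the one symbol of `r_sym`. (Cf. `r_fpMap_sym`, `fpMap`.) -/
def S_siops (HdR : A ⥤ ModuleCat.{0} QBar) (HB : A ⥤ ModuleCat.{0} ℚ) [FibreFunctor HdR]
    [FibreFunctor HB] : Prop :=
  ∀ (g : TensorGrading HdR) (M : A),
  ∃ π : ℤ → (PerAlg HdR HB (Gen M) →ₗ[QBar] PerAlg HdR HB (Gen M)),
    (∀ (p : ℤ) {N : A} (hN : Gen M N) ω σ,
      π p (asym HdR HB hN ω σ) = asym HdR HB hN (g.pr p N ω) σ) ∧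
    ∀ x, ∃ s : Finset ℤ, (∀ p, p ∉ s → π p x = 0) ∧ ∑ p ∈ s, π p x = x

/-- [SI fil] The filtered form of `S_sipair`. Uses `S_siops`, `S_sipair`.

Proof. Let `π` be the operators.  They satisfy (from the first property, as every element is a symbol `r_sym`, or for elements of `fw` by span
induction): `π p (π q x) = 0` for `p ≠ q`, `π p (π p x) = π p x`; `π (p + q) (π p x * π q y) = π p x * π q y` (`a_algrel .2.1`,
`g.tensor`); `π p` maps `fw hN` to itself and `rQ` to itself (same object `W`, same `σ`); `π 0 1 = 1`, `π p 1 = 0` for `p ≠ 0` (`g.one`, `orth`).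
By `S_siops` choose the smallest `p` with `π p x ≠ 0`, and `y₀ ∈ fw (Nᘁ)` with `y₀ * π p x ∉ rQ` (`S_sipair`), `y = π (-p) y₀`.
Claim: `z ∉ rQ → π 0 z ∉ rQ`: write `z = a + q` with `a` a scalar, `q ∈ rQ` (`rQ_dec`, `r_scalar`), `π 0 z = a + π 0 q`; if this is in `rQ` then
`a ∈ rQ`, so `a = 0` (`rQ_one`, `rQ` is a subspace) and `z = q ∈ rQ`.
So `π 0 (y₀ * π p x) ∉ rQ`.  Now `y₀ = ∑_q π q y₀`, so `π 0 (y₀ * π p x) = π (-p) y₀ * π p x = y * π p x`; and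
`π 0 (y * x) = y * π p x` (`x = ∑ π q x`), so `y * x ∉ rQ` (as `π 0` maps `rQ` to `rQ`).
`x` is in the first span: `x = ∑_{q ≥ p} π q x` and `π q` of a symbol with `q ≥ p` is a symbol with `ω ∈ F p`; `y` is in the second span. -/
def S_sifil (HdR : A ⥤ ModuleCat.{0} QBar) (HB : A ⥤ ModuleCat.{0} ℚ) [FibreFunctor HdR]
    [FibreFunctor HB] : Prop :=
  ∀ (_ : Comparison HdR HB) (g : TensorGrading HdR) (M : A), SemisimpleGen M →
  ∀ (N : A) (hN : Gen M N), ∀ x ∈ fw HdR HB hN, x ≠ 0 → ∃ p : ℤ,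
    x ∈ Submodule.span QBar {z | ∃ ω ∈ g.F p N, ∃ σ, z = asym HdR HB hN ω σ} ∧
    ∃ y ∈ Submodule.span QBar {z | ∃ ω ∈ g.F (-p) (Nᘁ), ∃ σ, z = asym HdR HB (Gen.dual hN) ω σ},
      y * x ∉ rQ HdR HB M (𝟙_ A)

/-- [SI sum] A finite sum of symbols. Uses `S_sifil`.

Proof. An element of the span of the symbols of `N` with `ω ∈ F p` is a finite sum `∑_j asym ω_j σ_j` with `ω_j ∈ F p` (span induction; scalars are
absorbed in `ω_j`).  The product of two such sums is the sum of the `asym (mul ω_j η_k) (σ_j ⊠ τ_k)` (`a_algrel .2.1`), and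
`mul ω η ∈ F (p + q)` for `ω ∈ F p`, `η ∈ F q`: `ω`, `η` are sums of components of degree `≥ p`, `≥ q` (`g.sum`), `g.tensor` and `g.orth`. -/
def S_sisum (HdR : A ⥤ ModuleCat.{0} QBar) (HB : A ⥤ ModuleCat.{0} ℚ) [FibreFunctor HdR]
    [FibreFunctor HB] : Prop :=
  ∀ (_ : Comparison HdR HB) (g : TensorGrading HdR) (M : A), SemisimpleGen M →
  ∀ (N : A) (hN : Gen M N), ∀ x ∈ fw HdR HB hN, x ≠ 0 →
  ∃ (r : ℕ) (ω : Fin r → HdR.obj (N ⊗ Nᘁ)) (γ : Fin r → BDual HB (N ⊗ Nᘁ))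
    (y : PerAlg HdR HB (Gen M)), (∀ a, ω a ∈ g.F 0 (N ⊗ Nᘁ)) ∧
    ∑ a, asym HdR HB (Gen.tensor hN (Gen.dual hN)) (ω a) (γ a) = y * x ∧
    y * x ∉ rQ HdR HB M (𝟙_ A)

/-- [SI one] From a sum of `r` symbols to one symbol.

Proof. `u a = HdR(i a)(one)`, `v b = χ ∘ HB(p b)`, `χ = rChi HB`; `ω' = ∑_a mul (ω a) (u a)`, `γ' = ∑_b tdual HB (γ b) (v b)`.
`asym ω' γ' = ∑_{a, b} asym (ω a) (γ b) * asym (u a) (v b)` and `asym (u a) (v b) = asym_1 one (χ ∘ HB(i a ≫ p b)) = δ_{ab}`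
(`a_arel`, `a_algrel`).  `u a` is homogeneous of degree `0` (`g.nat`, `g.one`), so `mul (ω a) (u a) ∈ F 0` (as in `S_sisum`: prove
`mul ω η ∈ F (p + q)` again). -/
def S_sione (HdR : A ⥤ ModuleCat.{0} QBar) (HB : A ⥤ ModuleCat.{0} ℚ) [FibreFunctor HdR]
    [FibreFunctor HB] : Prop :=
  ∀ (g : TensorGrading HdR) (M U V : A) (hU : Gen M U) (hV : Gen M V) (r : ℕ)
    (i : Fin r → (𝟙_ A ⟶ V)) (p : Fin r → (V ⟶ 𝟙_ A)),
    (∀ a b, i a ≫ p b = if a = b then 𝟙 _ else 0) →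
  ∀ (ω : Fin r → HdR.obj U) (γ : Fin r → BDual HB U), (∀ a, ω a ∈ g.F 0 U) →
  ∃ ω' ∈ g.F 0 (U ⊗ V), ∃ γ' : BDual HB (U ⊗ V),
    asym HdR HB (Gen.tensor hU hV) ω' γ' = ∑ a, asym HdR HB hU (ω a) (γ a)

/-- [SI proj] Projection to the part without invariants.

Proof. `U ≅ V₀ ⊞ V₁` (`ss_splits`), `r_split`: `asym U ω γ = a + asym V₁ ω₁ γ₁` with a scalar `a` (`r_scalar`) and the second summand in `rQ`;
`a ≠ 0` as `asym U ω γ ∉ rQ`; evaluation: `a + per ω₁ γ₁ = 0`.  `ω' = (-a)⁻¹ • HdR(φ.hom ≫ snd ≫ inr ≫ φ.inv)(ω)`, `γ' = γ`: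
`per U (HdR(fst-part)..)`: `per_nat` gives `per U ω' γ = (-a)⁻¹ per V₁ ω₁ γ₁ = 1`.  `ω' ∈ F 0` by naturality, and for `f : U ⟶ 1` the
composition `V₁ ⟶ U ⟶ 1` is zero (`V₁` is orthogonal to `1`). -/
def S_siproj (HdR : A ⥤ ModuleCat.{0} QBar) (HB : A ⥤ ModuleCat.{0} ℚ) [FibreFunctor HdR]
    [FibreFunctor HB] : Prop :=
  ∀ (c : Comparison HdR HB) (g : TensorGrading HdR) (M : A), SemisimpleGen M →
  ∀ (U : A) (hU : Gen M U) (ω : HdR.obj U) (γ : BDual HB U), ω ∈ g.F 0 U →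
  asym HdR HB hU ω γ ∉ rQ HdR HB M (𝟙_ A) → c.val ω γ = 0 →
  ∃ ω' ∈ g.F 0 U, ∃ γ' : BDual HB U, (∀ f : U ⟶ 𝟙_ A, act HdR f ω' = 0) ∧ c.val ω' γ' = 1

/-- [SI twist] Twisting by `L^k`.

Proof. Let `ℓ k ∈ HdR(L^k)`, `λ k ∈ HB(L^k)^∨` be the powers of `form` and `cycle` (`ℓ 0 = one`, `ℓ (k+1) = mul (ℓ k) form`,
`λ 0 = rChi`, `λ (k+1) = tdual (λ k) cycle`): `per (ℓ k) (λ k) = period ^ k`, `ℓ k` is homogeneous of degree `k` and nonzero.
(→) `ω' = HdR(ψ.hom)(mul ω (ℓ k))`, `γ' = (tdual γ (λ k)) ∘ HB(ψ.inv)`.  For `f : Y ⟶ L^k`: `ψ.hom ≫ f : U ⊗ L^k ⟶ L^k` is `(φ ▷ L^k) ≫ λ_` for some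
`φ : U ⟶ 1`, because `L^k` is invertible (tensor with the inverse `I` of `L^k`, `I ⊗ L^k ≅ 1`; or: the map `Hom(U, 1) → Hom(U ⊗ L^k, L^k)` is
bijective by the rigid adjunction and `(L^k) ⊗ (L^k)ᘁ ≅ 1`); so `act f ω' = mul (act φ ω) (ℓ k)` up to unitors `= 0`.
(←) `HdR(ψ.inv)(ω)` is of the form `mul ω' (ℓ k)` (`HdR(L^k)` is one-dimensional with basis `ℓ k`, `FibreFunctor.bij`) and
`γ ∘ HB(ψ.hom) = tdual γ' (λ k)`; `per ω' γ' * period ^ k = period ^ k` and `period ≠ 0` (`HdR(L)`, `HB(L)` are one-dimensional and the comparison is an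
isomorphism, `c.bij`).  For `φ : U ⟶ 1`, `f = ψ.inv ≫ (φ ▷ L^k) ≫ λ_`: `0 = act f ω = mul (act φ ω') (ℓ k)`, so `act φ ω' = 0`. -/
def S_sitwist {c : Comparison HdR HB} {g : TensorGrading HdR} (Λ : Lefschetz c g) : Prop :=
  ∀ (U Y : A) (k : ℕ), Nonempty (U ⊗ tpow Λ.L k ≅ Y) →
  (∀ (ω : HdR.obj U) (γ : BDual HB U), ω ∈ g.F 0 U → (∀ f : U ⟶ 𝟙_ A, act HdR f ω = 0) →
    c.val ω γ = 1 → ∃ (ω' : HdR.obj Y) (γ' : BDual HB Y), ω' ∈ g.F (k : ℤ) Y ∧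
      (∀ f : Y ⟶ tpow Λ.L k, act HdR f ω' = 0) ∧ c.val ω' γ' = Λ.period ^ k) ∧
  (∀ (ω : HdR.obj Y) (γ : BDual HB Y), (∀ f : Y ⟶ tpow Λ.L k, act HdR f ω = 0) →
    c.val ω γ = Λ.period ^ k → ∃ (ω' : HdR.obj U) (γ' : BDual HB U),
      (∀ f : U ⟶ 𝟙_ A, act HdR f ω' = 0) ∧ c.val ω' γ' = 1)

/-- [SI inj] Independence of periods does not change under twists by `L^k`.

Proof. Work in `PerAlg HdR HB (fun _ => True)` (`TClosed`; `a_fwev`, `a_fwdim`: `P = N` for `W` iff `evAlg` is injective on `fw W`, see `r_localdim` and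
`finrank_map_of_inj`; the converse direction: a surjective linear map `fw W → span Per W` between spaces of the same finite dimension
is injective).  Or use the existing `a_twisteqv c` (`StmD2.lean`, `S_twisteqv`: `Nf`, `Pf` do not change under twists) if it applies to `L`. `fw (U ⊗ L^k) =
fw U * fw (L^k)` (`a_fwprod`) and `fw (L^k)` is spanned by one element `t_k`, which is invertible: `L^k ⊗ I ≅ 1`, so `fw (L^k) * fw I = 1`. -/
def S_siinj {c : Comparison HdR HB} {g : TensorGrading HdR} (Λ : Lefschetz c g) : Prop :=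
  ∀ (U Y : A) (k : ℕ), Nonempty (U ⊗ tpow Λ.L k ≅ Y) →
  independent c Y = expected HB Y → independent c U = expected HB U

/-- [SI rk1] Objects of rank at most one.

Proof. `T^n` has rank `≤ 1`, so `HdR(T^n)`, `HB(T^n)` have dimension `≤ 1` and `fw` is spanned by one symbol, whose period is not zero
(`c.bij`) if the rank is one. `P = N = 1` (or `0`): `a_fwev`, `a_fwdim` with `S = fun _ => True`, `finrank_map_of_inj`. -/
def S_sirk (c : Comparison HdR HB) : Prop :=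
  ∀ T : A, Module.finrank ℚ (HB.obj T) ≤ 1 → ∀ n, independent c (tpow T n) = expected HB (tpow T n)

/-- [SI eq2] (1) → (2). Uses `S_siinj`, `S_sitwist`, `S_siiso`.

Proof. Suppose `Unexpected Λ w T n`.  `T ≠ 0` or `n = 0` (otherwise `HdR(T^(2n)) = 0`; `period ≠ 0`, see `S_sitwist`).  Let `U = T^n ⊗ (T^n)ᘁ`, so
`U ⊗ L^(w n) ≅ T^(2n)` (`S_siiso`): by `S_sitwist` (←) there are `ω'`, `γ'` on `U` with all `act f ω' = 0` and `per ω' γ' = 1`, and
`P(U) = N(U)` by `S_siinj`, so `evAlg` is injective on `fw U` in `PerAlg (Gen T)` (finite dimensions, `a_fwev`, `a_fwdim`).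
`1 ∈ fw U`: the coevaluation `1 ⟶ U` is nonzero as `T^n ≠ 0`, and mono, so `1` is in `Lin U`; `a_fwlin`, `a_fwprod .2`.
So `asym U ω' γ' = 1`.  But `asym U ω' γ' ∈ rQ`: `U ≅ V₀ ⊞ V₁` (`ss_splits`), the component of `ω'` in `HdR(V₀)`
is `0` because the morphisms `V₀ ⟶ 1` separate the elements of `HdR(V₀)` (`r_gen_unit HB`: `rCoinv`; compare dimensions or use dual bases: the
morphisms `V₀ ⟶ 1` given by a basis of `HB(V₀)^∨` give an isomorphism `V₀ ≅ 1^r`).  Contradiction to `rQ_one`. -/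
def S_sieq2 {c : Comparison HdR HB} {g : TensorGrading HdR} (Λ : Lefschetz c g) : Prop :=
  ∀ (w : ℕ) (T : A), SemisimpleGen T → Nonempty (T ≅ Tᘁ ⊗ tpow Λ.L w) →
  (∀ n, independent c (tpow T n) = expected HB (tpow T n)) → ∀ n, ¬ Unexpected Λ w T n

/-- [SI eq3] (3) → (1). Uses all the statements above. (helper63) -/
def S_sieq3 {c : Comparison HdR HB} {g : TensorGrading HdR} (Λ : Lefschetz c g) : Prop :=
  ∀ (w : ℕ) (T : A), SemisimpleGen T → Nonempty (T ≅ Tᘁ ⊗ tpow Λ.L w) → ∀ n₀,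
  independent c (tpow T n₀) ≠ expected HB (tpow T n₀) →
  ∀ᶠ n in Filter.atTop, Unexpected Λ w T n

/-- [SI grw] The dimension of `G(T)` is at most the transcendence degree plus one.

Proof. Let `T' = 𝟙_ A ⊞ T`, `V = fw T'` in `R = PerAlg HdR HB (Gen T')`: `a_fwgen2` (`1 ∈ V`, `GenLoc`, `fw (T'^n) = V^n`), `V = 1 + fw T`, so
`V^n = ∑_{k ≤ n} fw (T^k)` and `dim V^n ≤ ∑_{k ≤ n} dim fw (T^k) = ∑_{k ≤ n} P(T^k) ≤ (n + 1) dim ev(V^n)` (`fw (T^k) ≤ V^n`, and `P(T^k) = N(T^k)`: `a_fwdim`,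
`a_fwev`).  `a_grown2`, `a_growp2`, `a_dims` (see how the density law `D/Law.lean` / `D/Final.lean` uses them: `r ≥ 1` components, `g`, `t` with
`dim G = g`, `trdeg = t`): `a (n+1)^g ≤ dim V^n ≤ (n + 1) b (n + 1)^t` for all `n`, so `g ≤ t + 1`.  `⟨T'⟩ = ⟨T⟩` and `Per T' = Per T ∪ QBar`-combinations:
`DimensionFormula`-type quantities of `T` and `T'` agree (`ringKrullDim (PerAlg HB HB (Gen T))` with `Gen T = Gen T'`, and the transcendence degrees: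
`Per T ⊆ Per T'`, so it is enough that `trdeg` for `T'` is at most the one for `T`: every period of `T'` is algebraic over `ℚ(Per T)`;
or use `a_perfield`, `p_trdeg` for `T` directly with the algebra `PerAlg HdR HB (Gen T)` and `V` the span of `1` and `fw T`). -/
def S_sigrw (c : Comparison HdR HB) : Prop :=
  ∀ T : A, (∀ n, independent c (tpow T n) = expected HB (tpow T n)) →
  ringKrullDim (PerAlg HB HB (Gen T)) ≤
    ((Cardinal.toENat (Algebra.trdeg ℚ (IntermediateField.adjoin ℚ (c.Per T))) : ℕ∞) :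
      WithBot ℕ∞) + 1

/-- [SI q1] Q1 and the independence of the periods of the powers.

Proof. (→) `evAlg` is injective on `PerAlg (Gen T)` (`a_q1`), so on `fw (T^n)`; `a_fwev`, `a_fwdim`, `finrank_map_of_inj`.
(←) as the end of the proof of `r_tensor_crit` (`R/Final.lean`): `a_fwgen2` and injectivity on all `fw (T^n)` (surjection between spaces of the
same finite dimension). -/
def S_siq1 (c : Comparison HdR HB) : Prop :=
  ∀ T : A, Lin T (𝟙_ A) → (PeriodConjecture c T ↔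
    ∀ n, independent c (tpow T n) = expected HB (tpow T n))

end Main

end

end Pool.Agent.Lib.MP_ae0f86_nt
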